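import Mathlib
import Pool.Agent.B1d060.PM

set_option autoImplicit false

/-! Lebesgue's theorem for the cube from the cubical Poincare-Miranda lemma. -/

namespace Pool.Agent.LibTD67

open Set

/-- the unit cube -/
def Cube (m : ℕ) : Set (Fin m → ℝ) := {x | ∀ i, x i ∈ Icc (0 : ℝ) 1}

theorem isCompact_cube (m : ℕ) : IsCompact (Cube m) := by
  have : Cube m = Set.pi univ fun _ : Fin m => Icc (0 : ℝ) 1 := by
    ext x
    constructor
    · intro h i _; exact h i
    · intro h i; exact h i (mem_univ i)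
  rw [this]
  exact isCompact_univ_pi fun _ => isCompact_Icc

theorem lebesgue (m : ℕ) (A B : Fin m → Set (Fin m → ℝ)) (hA : ∀ i, IsCompact (A i))
    (hB : ∀ i, IsCompact (B i)) (hd : ∀ i, Disjoint (A i) (B i))
    (h0 : ∀ i, ∀ x ∈ Cube m, x i = 0 → x ∈ A i) (h1 : ∀ i, ∀ x ∈ Cube m, x i = 1 → x ∈ B i)
    (hcov : Cube m ⊆ ⋃ i, (A i ∪ B i)) : False := by
  classical
  have h2 : ∀ i, ∃ δ : ℝ, 0 < δ ∧ Disjoint (Metric.thickening δ (A i)) (Metric.thickening δ (B i)) :=
    fun i => (hd i).exists_thickenings (hA i) (hB i).isClosed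
  choose δ hδ hdis using h2
  obtain ⟨N, hN⟩ := (Filter.eventually_all.2 fun i =>
    (tendsto_one_div_add_atTop_nhds_zero_nat (𝕜 := ℝ)).eventually_lt_const (hδ i)).exists
  have hNpos : (0 : ℝ) < (N : ℝ) + 1 := by positivity
  let x : (Fin m → ℕ) → (Fin m → ℝ) := fun w j => ((min (w j) (N + 1) : ℕ) : ℝ) / ((N : ℝ) + 1)
  have hxQ : ∀ w, x w ∈ Cube m := by
    intro w j
    refine ⟨by positivity, ?_⟩
    simp only [x]
    rw [div_le_one hNpos]
    have : min (w j) (N + 1) ≤ N + 1 := min_le_right _ _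
    exact_mod_cast this
  have hdist : ∀ w u, Pool.Agent.B1d060.PM.InCube w u → dist (x u) (x w) ≤ 1 / ((N : ℝ) + 1) := by
    intro w u hu
    rw [dist_pi_le_iff (by positivity)]
    intro j
    simp only [x]
    rw [Real.dist_eq, ← sub_div, abs_div, abs_of_pos hNpos]
    refine div_le_div_of_nonneg_right ?_ hNpos.le
    rcases hu j with h | h
    · rw [h]; simp
    · rw [h]
      rcases le_or_gt (w j + 1) (N + 1) with h' | h'
      · rw [min_eq_left h', min_eq_left (by omega)]
        push_cast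
        simp
      · rw [min_eq_right h'.le, min_eq_right (by omega)]
        simp
  let g : Fin m → (Fin m → ℕ) → Bool := fun i w => decide (x w ∉ Metric.thickening (δ i) (A i))
  have hg0 : ∀ i w, w i = 0 → g i w = false := by
    intro i w hw
    have : x w ∈ A i := h0 i (x w) (hxQ w) (by
      simp only [x, hw, Nat.zero_min, Nat.cast_zero, zero_div])
    simp only [g, decide_eq_false_iff_not, not_not]
    exact Metric.self_subset_thickening (hδ i) _ this
  have hg1 : ∀ i w, w i = N + 1 → g i w = true := by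
    intro i w hw
    have : x w ∈ B i := h1 i (x w) (hxQ w) (by
      simp only [x, hw, min_self]
      push_cast
      exact div_self hNpos.ne')
    simp only [g, decide_eq_true_iff]
    intro h
    exact Set.disjoint_left.1 (hdis i) h (Metric.self_subset_thickening (hδ i) _ this)
  obtain ⟨w, -, hw⟩ := Pool.Agent.B1d060.PM.poincare_miranda (N + 1) g hg0 hg1
  obtain ⟨i, hi⟩ := mem_iUnion.1 (hcov (hxQ w))
  obtain ⟨u, v, hu, hv, hgu, hgv⟩ := hw i
  simp only [g, decide_eq_false_iff_not, not_not] at hgu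
  simp only [g, decide_eq_true_iff] at hgv
  rcases hi with hi | hi
  · exact hgv (Metric.mem_thickening_iff.2 ⟨x w, hi, (hdist w v hv).trans_lt (hN i)⟩)
  · exact Set.disjoint_left.1 (hdis i) hgu
      (Metric.mem_thickening_iff.2 ⟨x w, hi, (hdist w u hu).trans_lt (hN i)⟩)

end Pool.Agent.LibTD67
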