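import Mathlib

set_option autoImplicit false

/-! The ambient space and the points `Phi f t k w`, `Psi f`. -/

namespace Pool.Agent.LibTD67

open Set

/-- index set of the coordinates -/
inductive Om : Type
  | a (n : ℕ) (g : ℕ → ℝ)
  | b (n : ℕ) (g : ℕ → ℝ)
  | c (k : ℕ)
  | d (k i : ℕ)

instance : TopologicalSpace Om := ⊥
instance : DiscreteTopology Om := ⟨rfl⟩

/-- the ambient metric space: bounded functions on `Om` with the sup distance -/
abbrev E : Type := BoundedContinuousFunction Om ℝ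

/-- clamping to the unit interval -/
noncomputable def cl (u : ℝ) : ℝ := max 0 (min 1 u)

theorem cl_nonneg (u : ℝ) : 0 ≤ cl u := le_max_left _ _
theorem cl_le_one (u : ℝ) : cl u ≤ 1 := max_le zero_le_one (min_le_left _ _)
theorem cl_of_nonpos {u : ℝ} (h : u ≤ 0) : cl u = 0 := by
  rw [cl, max_eq_left]; exact (min_le_right _ _).trans h
theorem cl_of_one_le {u : ℝ} (h : 1 ≤ u) : cl u = 1 := by
  rw [cl, min_eq_left h, max_eq_right zero_le_one]
theorem cl_pos {u : ℝ} (h : 0 < u) : 0 < cl u := by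
  rw [cl]; exact lt_max_of_lt_right (lt_min one_pos h)
theorem pos_of_cl_pos {u : ℝ} (h : 0 < cl u) : 0 < u := by
  by_contra h'
  rw [cl_of_nonpos (not_lt.1 h')] at h
  exact lt_irrefl _ h
theorem one_le_of_cl {u : ℝ} (h : cl u = 1) : 1 ≤ u := by
  by_contra h'
  push Not at h'
  rw [cl, min_eq_right h'.le] at h
  rcases max_choice (0 : ℝ) u with h1 | h1 <;> rw [h1] at h <;> linarith
theorem cl_mono {u v : ℝ} (h : u ≤ v) : cl u ≤ cl v :=
  max_le_max le_rfl (min_le_min le_rfl h)
theorem cl_lip (u v : ℝ) : |cl u - cl v| ≤ |u - v| := by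
  have h1 : |max (min 1 u) 0 - max (min 1 v) 0| ≤ |min 1 u - min 1 v| :=
    abs_max_sub_max_le_abs _ _ _
  have h2 : |min 1 u - min 1 v| ≤ |u - v| := by
    refine (abs_min_sub_min_le_max 1 u 1 v).trans ?_
    simp
  rw [cl, cl, max_comm 0 (min 1 u), max_comm 0 (min 1 v)]
  exact h1.trans h2

/-- weight -/
noncomputable def om (t : ℝ) : ℝ := (1 + max t 0)⁻¹

theorem om_pos (t : ℝ) : 0 < om t := by
  have : 0 ≤ max t 0 := le_max_right _ _
  rw [om]; positivity
theorem om_le_one (t : ℝ) : om t ≤ 1 := by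
  have : 0 ≤ max t 0 := le_max_right _ _
  rw [om]
  exact inv_le_one_of_one_le₀ (by linarith)
theorem om_lt_iff {s t : ℝ} (hs : 0 ≤ s) (ht : 0 ≤ t) : om t < om s ↔ s < t := by
  rw [om, om, max_eq_left hs, max_eq_left ht]
  rw [inv_lt_inv₀ (by linarith) (by linarith)]
  constructor <;> intro h <;> linarith
theorem om_le_iff {s t : ℝ} (hs : 0 ≤ s) (ht : 0 ≤ t) : om t ≤ om s ↔ s ≤ t := by
  rw [om, om, max_eq_left hs, max_eq_left ht]
  rw [inv_le_inv₀ (by linarith) (by linarith)]
  constructor <;> intro h <;> linarith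
theorem om_le (n : ℕ) {t : ℝ} (h : (n : ℝ) ≤ t) : om t ≤ 1 / (1 + n) := by
  have hn : (0 : ℝ) ≤ n := Nat.cast_nonneg n
  rw [om, one_div]
  refine inv_anti₀ (by linarith) ?_
  have := le_max_left t 0
  linarith
theorem om_lip (s t : ℝ) : |om s - om t| ≤ |s - t| := by
  have hs : 0 ≤ max s 0 := le_max_right _ _
  have ht : 0 ≤ max t 0 := le_max_right _ _
  rw [om, om, inv_sub_inv (by linarith) (by linarith), abs_div]
  have h1 : |1 + max t 0 - (1 + max s 0)| ≤ |s - t| := by
    rw [add_sub_add_left_eq_sub, abs_sub_comm]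
    exact abs_max_sub_max_le_abs _ _ _
  have h2 : 1 ≤ |(1 + max s 0) * (1 + max t 0)| := by
    rw [abs_of_nonneg (by positivity)]
    nlinarith
  rw [div_le_iff₀ (by linarith)]
  have := abs_nonneg (s - t)
  nlinarith

theorem arctan_abs_lt (x : ℝ) : |Real.arctan x| < 2 := by
  have h1 := Real.arctan_lt_pi_div_two x
  have h2 := Real.neg_pi_div_two_lt_arctan x
  have h3 := Real.pi_lt_d2
  rw [abs_lt]
  constructor <;> linarith

theorem arctan_lip (x y : ℝ) : |Real.arctan x - Real.arctan y| ≤ |x - y| := by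
  have h := Convex.norm_image_sub_le_of_norm_hasDerivWithin_le
    (f := Real.arctan) (f' := fun x => 1 / (1 + x ^ 2)) (s := univ) (x := y) (y := x) (C := 1)
    (fun x _ => (Real.hasDerivAt_arctan x).hasDerivWithinAt) (fun x _ => by
      rw [Real.norm_eq_abs, abs_of_nonneg (by positivity), div_le_one (by positivity)]
      nlinarith [sq_nonneg x]) convex_univ (mem_univ _) (mem_univ _)
  simpa using h

open Classical in
/-- coordinates of the finite points -/
noncomputable def phiFun (f : ℕ → ℝ) (t : ℝ) (k : ℕ) (w : ℕ → ℝ) : Om → ℝ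
  | .a n g => if ∀ i < n, f i = g i then (1 / 2) ^ n * cl (t - n) else 0
  | .b n g => if ∀ i < n, f i = g i then (1 / 2) ^ n * cl (t - n) * Real.arctan (f n) else 0
  | .c k' => if k' = k then om t else 0
  | .d k' i => if k' = k ∧ i < k then om t * Real.arctan (w i) else 0

open Classical in
/-- coordinates of the ends -/
noncomputable def psiFun (f : ℕ → ℝ) : Om → ℝ
  | .a n g => if ∀ i < n, f i = g i then (1 / 2) ^ n else 0
  | .b n g => if ∀ i < n, f i = g i then (1 / 2) ^ n * Real.arctan (f n) else 0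
  | .c _ => 0
  | .d _ _ => 0

theorem half_pow_le_one (n : ℕ) : ((1 : ℝ) / 2) ^ n ≤ 1 :=
  pow_le_one₀ (by norm_num) (by norm_num)

theorem half_pow_pos (n : ℕ) : (0 : ℝ) < (1 / 2) ^ n := by positivity

theorem phiFun_bound (f : ℕ → ℝ) (t : ℝ) (k : ℕ) (w : ℕ → ℝ) (x : Om) :
    ‖phiFun f t k w x‖ ≤ 2 := by
  rw [Real.norm_eq_abs]
  have key : ∀ n : ℕ, |((1 : ℝ) / 2) ^ n * cl (t - n)| ≤ 1 := by
    intro n
    rw [abs_of_nonneg (mul_nonneg (half_pow_pos n).le (cl_nonneg _))]
    exact mul_le_one₀ (half_pow_le_one n) (cl_nonneg _) (cl_le_one _)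
  have homa : |om t| ≤ 1 := by rw [abs_of_pos (om_pos t)]; exact om_le_one t
  cases x with
  | a n g =>
    simp only [phiFun]
    split_ifs
    · exact (key n).trans (by norm_num)
    · simp
  | b n g =>
    simp only [phiFun]
    split_ifs
    · rw [abs_mul]
      calc _ ≤ 1 * 2 := mul_le_mul (key n) (arctan_abs_lt _).le (abs_nonneg _) (by norm_num)
        _ = 2 := by norm_num
    · simp
  | c k' =>
    simp only [phiFun]
    split_ifs
    · exact homa.trans (by norm_num)
    · simp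
  | d k' i =>
    simp only [phiFun]
    split_ifs
    · rw [abs_mul]
      calc _ ≤ 1 * 2 := mul_le_mul homa (arctan_abs_lt _).le (abs_nonneg _) (by norm_num)
        _ = 2 := by norm_num
    · simp

theorem psiFun_bound (f : ℕ → ℝ) (x : Om) : ‖psiFun f x‖ ≤ 2 := by
  rw [Real.norm_eq_abs]
  have key : ∀ n : ℕ, |((1 : ℝ) / 2) ^ n| ≤ 1 := by
    intro n
    rw [abs_of_nonneg (half_pow_pos n).le]
    exact half_pow_le_one n
  cases x with
  | a n g =>
    simp only [psiFun]
    split_ifs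
    · exact (key n).trans (by norm_num)
    · simp
  | b n g =>
    simp only [psiFun]
    split_ifs
    · rw [abs_mul]
      calc _ ≤ 1 * 2 := mul_le_mul (key n) (arctan_abs_lt _).le (abs_nonneg _) (by norm_num)
        _ = 2 := by norm_num
    · simp
  | c k' => simp [psiFun]
  | d k' i => simp [psiFun]

/-- the finite points -/
noncomputable def Phi (f : ℕ → ℝ) (t : ℝ) (k : ℕ) (w : ℕ → ℝ) : E :=
  BoundedContinuousFunction.ofNormedAddCommGroupDiscrete (phiFun f t k w) 2 (phiFun_bound f t k w)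

/-- the ends -/
noncomputable def Psi (f : ℕ → ℝ) : E :=
  BoundedContinuousFunction.ofNormedAddCommGroupDiscrete (psiFun f) 2 (psiFun_bound f)

theorem Phi_apply (f : ℕ → ℝ) (t : ℝ) (k : ℕ) (w : ℕ → ℝ) (x : Om) :
    Phi f t k w x = phiFun f t k w x := rfl

theorem Psi_apply (f : ℕ → ℝ) (x : Om) : Psi f x = psiFun f x := rfl

theorem continuous_ev (x : Om) : Continuous fun z : E => z x :=
  (BoundedContinuousFunction.lipschitz_eval_const x).continuous

/-! basic coordinate facts -/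

theorem phi_a_nonneg (f : ℕ → ℝ) (t : ℝ) (k : ℕ) (w : ℕ → ℝ) (n : ℕ) (g : ℕ → ℝ) :
    0 ≤ Phi f t k w (.a n g) := by
  rw [Phi_apply, phiFun]
  split_ifs
  · exact mul_nonneg (half_pow_pos n).le (cl_nonneg _)
  · exact le_rfl

theorem phi_a_of_agree {f g : ℕ → ℝ} {n : ℕ} (h : ∀ i < n, f i = g i) (t : ℝ) (k : ℕ)
    (w : ℕ → ℝ) : Phi f t k w (.a n g) = (1 / 2) ^ n * cl (t - n) := by
  rw [Phi_apply, phiFun, if_pos h]

theorem agree_of_phi_a {f g : ℕ → ℝ} {n : ℕ} {t : ℝ} {k : ℕ} {w : ℕ → ℝ}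
    (h : 0 < Phi f t k w (.a n g)) : (∀ i < n, f i = g i) ∧ (n : ℝ) < t := by
  rw [Phi_apply, phiFun] at h
  split_ifs at h with h'
  · refine ⟨h', ?_⟩
    have := pos_of_cl_pos (pos_of_mul_pos_right h (half_pow_pos n).le)
    linarith
  · exact absurd h (lt_irrefl _)

theorem phi_a_pos {f g : ℕ → ℝ} {n : ℕ} (h : ∀ i < n, f i = g i) {t : ℝ} (ht : (n : ℝ) < t)
    (k : ℕ) (w : ℕ → ℝ) : 0 < Phi f t k w (.a n g) := by
  rw [phi_a_of_agree h]
  exact mul_pos (half_pow_pos n) (cl_pos (by linarith))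

theorem phi_b (f : ℕ → ℝ) (t : ℝ) (k : ℕ) (w : ℕ → ℝ) (n : ℕ) (g : ℕ → ℝ) :
    Phi f t k w (.b n g) = Phi f t k w (.a n g) * Real.arctan (f n) := by
  rw [Phi_apply, Phi_apply, phiFun, phiFun]
  split_ifs
  · rfl
  · simp

theorem phi_c (f : ℕ → ℝ) (t : ℝ) (k : ℕ) (w : ℕ → ℝ) : Phi f t k w (.c k) = om t := by
  rw [Phi_apply, phiFun, if_pos rfl]

theorem phi_c_ne (f : ℕ → ℝ) (t : ℝ) {k k' : ℕ} (h : k' ≠ k) (w : ℕ → ℝ) :
    Phi f t k w (.c k') = 0 := by
  rw [Phi_apply, phiFun, if_neg h]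

theorem phi_d (f : ℕ → ℝ) (t : ℝ) {k i : ℕ} (h : i < k) (w : ℕ → ℝ) :
    Phi f t k w (.d k i) = om t * Real.arctan (w i) := by
  rw [Phi_apply, phiFun, if_pos ⟨rfl, h⟩]

theorem psi_a_of_agree {f g : ℕ → ℝ} {n : ℕ} (h : ∀ i < n, f i = g i) :
    Psi f (.a n g) = (1 / 2) ^ n := by
  rw [Psi_apply, psiFun, if_pos h]

theorem agree_of_psi_a {f g : ℕ → ℝ} {n : ℕ} (h : 0 < Psi f (.a n g)) : ∀ i < n, f i = g i := by
  rw [Psi_apply, psiFun] at h
  split_ifs at h with h'
  · exact h'
  · exact absurd h (lt_irrefl _)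

theorem psi_b (f : ℕ → ℝ) (n : ℕ) (g : ℕ → ℝ) :
    Psi f (.b n g) = Psi f (.a n g) * Real.arctan (f n) := by
  rw [Psi_apply, Psi_apply, psiFun, psiFun]
  split_ifs
  · rfl
  · simp

theorem psi_c (f : ℕ → ℝ) (k : ℕ) : Psi f (.c k) = 0 := rfl

theorem Phi_congr {f g : ℕ → ℝ} {t : ℝ} (h : ∀ i : ℕ, (i : ℝ) < t → f i = g i) (k : ℕ)
    {w w' : ℕ → ℝ} (hw : ∀ i < k, w i = w' i) : Phi f t k w = Phi g t k w' := by
  ext x
  rw [Phi_apply, Phi_apply]
  have key : ∀ (n : ℕ) (h' : ℕ → ℝ), (n : ℝ) < t → ((∀ i < n, f i = h' i) ↔ ∀ i < n, g i = h' i) := by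
    intro n h' hn
    have : ∀ i < n, f i = g i := fun i hi => h i (by
      have : (i : ℝ) < n := by exact_mod_cast hi
      linarith)
    constructor
    · intro h1 i hi; rw [← this i hi]; exact h1 i hi
    · intro h1 i hi; rw [this i hi]; exact h1 i hi
  have key0 : ∀ n : ℕ, ¬ ((n : ℝ) < t) → cl (t - n) = 0 := fun n hn =>
    cl_of_nonpos (by linarith [not_lt.1 hn])
  cases x with
  | a n h' =>
    simp only [phiFun]
    by_cases hn : (n : ℝ) < t
    · simp only [key n h' hn]
    · simp [key0 n hn]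
  | b n h' =>
    simp only [phiFun]
    by_cases hn : (n : ℝ) < t
    · simp only [key n h' hn, h n hn]
    · simp [key0 n hn]
  | c k' => rfl
  | d k' i =>
    simp only [phiFun]
    by_cases hc : k' = k ∧ i < k
    · rw [if_pos hc, if_pos hc, hw i hc.2]
    · rw [if_neg hc, if_neg hc]

/-! distance estimates -/

theorem dist_phi_le {f g : ℕ → ℝ} {t t' : ℝ} {k n : ℕ} {w w' : ℕ → ℝ} {η : ℝ}
    (hag : ∀ i < n, g i = f i) (htn : t ≤ n + 1) (ht : |t' - t| ≤ η) (hf : |g n - f n| ≤ η)
    (hw : ∀ i < k, |w' i - w i| ≤ η) : dist (Phi g t' k w') (Phi f t k w) ≤ 3 * η := by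
  have hη : 0 ≤ η := (abs_nonneg _).trans ht
  rw [BoundedContinuousFunction.dist_le (by linarith)]
  intro x
  rw [Real.dist_eq, Phi_apply, Phi_apply]
  -- the function `a`
  have ha : ∀ (m : ℕ) (h : ℕ → ℝ), |phiFun g t' k w' (.a m h) - phiFun f t k w (.a m h)| ≤ η := by
    intro m h
    simp only [phiFun]
    have hcl : |((1 : ℝ) / 2) ^ m * cl (t' - m) - (1 / 2) ^ m * cl (t - m)| ≤ η := by
      rw [← mul_sub, abs_mul, abs_of_pos (half_pow_pos m)]
      calc _ ≤ 1 * |cl (t' - m) - cl (t - m)| :=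
            mul_le_mul_of_nonneg_right (half_pow_le_one m) (abs_nonneg _)
        _ ≤ |(t' - m) - (t - m)| := by rw [one_mul]; exact cl_lip _ _
        _ ≤ η := by rw [sub_sub_sub_cancel_right]; exact ht
    rcases le_or_gt m n with hmn | hmn
    · have hiff : (∀ i < m, g i = h i) ↔ ∀ i < m, f i = h i := by
        constructor
        · intro h1 i hi; rw [← hag i (by omega)]; exact h1 i hi
        · intro h1 i hi; rw [hag i (by omega)]; exact h1 i hi
      simp only [hiff]
      split_ifs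
      · exact hcl
      · simpa using hη
    · have h0 : cl (t - m) = 0 := cl_of_nonpos (by
        have : ((n : ℝ) + 1) ≤ m := by exact_mod_cast hmn
        linarith)
      rw [h0, mul_zero] at hcl ⊢
      rw [sub_zero] at hcl
      split_ifs
      · simpa using hcl
      · simpa using hcl
      · simpa using hη
      · simpa using hη
  have hprod : ∀ (p q u v η1 : ℝ), |p - q| ≤ η → |q| ≤ 1 → |u - v| ≤ η1 → |u| ≤ 2 →
      |p * u - q * v| ≤ 2 * η + η1 := by
    intro p q u v η1 h1 h2 h3 h4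
    have hid : p * u - q * v = (p - q) * u + q * (u - v) := by ring
    rw [hid]
    refine (abs_add_le _ _).trans ?_
    rw [abs_mul, abs_mul]
    have e1 : |p - q| * |u| ≤ η * 2 := mul_le_mul h1 h4 (abs_nonneg _) hη
    have e2 : |q| * |u - v| ≤ 1 * η1 := mul_le_mul h2 h3 (abs_nonneg _) (by norm_num)
    linarith
  cases x with
  | a m h => exact (ha m h).trans (by linarith)
  | b m h =>
    have e1 : phiFun g t' k w' (.b m h) = phiFun g t' k w' (.a m h) * Real.arctan (g m) :=
      phi_b g t' k w' m h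
    have e2 : phiFun f t k w (.b m h) = phiFun f t k w (.a m h) * Real.arctan (f m) :=
      phi_b f t k w m h
    rw [e1, e2]
    have hq : |phiFun f t k w (.a m h)| ≤ 1 := by
      simp only [phiFun]
      split_ifs
      · rw [abs_of_nonneg (mul_nonneg (half_pow_pos m).le (cl_nonneg _))]
        exact mul_le_one₀ (half_pow_le_one m) (cl_nonneg _) (cl_le_one _)
      · simp
    rcases lt_trichotomy m n with hmn | hmn | hmn
    · rw [hag m hmn]
      have := hprod _ _ (Real.arctan (f m)) (Real.arctan (f m)) 0 (ha m h) hq (by simp)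
        (arctan_abs_lt _).le
      linarith
    · subst hmn
      have := hprod _ _ (Real.arctan (g m)) (Real.arctan (f m)) η (ha m h) hq
        ((arctan_lip _ _).trans hf) (arctan_abs_lt _).le
      linarith
    · have h0 : phiFun f t k w (.a m h) = 0 := by
        have h0 : cl (t - m) = 0 := cl_of_nonpos (by
          have : ((n : ℝ) + 1) ≤ m := by exact_mod_cast hmn
          linarith)
        simp [phiFun, h0]
      have h1 := ha m h
      rw [h0, sub_zero] at h1
      rw [h0, zero_mul, sub_zero, abs_mul]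
      have e1 := mul_le_mul h1 (arctan_abs_lt (g m)).le (abs_nonneg _) hη
      linarith
  | c k' =>
    simp only [phiFun]
    split_ifs
    · exact (om_lip _ _).trans (by linarith)
    · simp; linarith
  | d k' i =>
    simp only [phiFun]
    split_ifs with hc
    · have := hprod (om t') (om t) (Real.arctan (w' i)) (Real.arctan (w i)) η
        ((om_lip _ _).trans ht) (by rw [abs_of_pos (om_pos t)]; exact om_le_one t)
        ((arctan_lip _ _).trans (hw i hc.2)) (arctan_abs_lt _).le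
      linarith
    · simp; linarith

theorem half_pow_le (n : ℕ) : ((1 : ℝ) / 2) ^ n ≤ 1 / (1 + n) := by
  rw [div_pow, one_pow]
  refine one_div_le_one_div_of_le (by positivity) ?_
  have : n + 1 ≤ 2 ^ n := Nat.lt_two_pow_self
  have h : ((n + 1 : ℕ) : ℝ) ≤ ((2 ^ n : ℕ) : ℝ) := by exact_mod_cast this
  push_cast at h
  linarith

theorem dist_phi_psi {f g : ℕ → ℝ} {t : ℝ} {k n : ℕ} {w : ℕ → ℝ}
    (hag : ∀ i < n, g i = f i) (ht : (n : ℝ) ≤ t) :
    dist (Phi g t k w) (Psi f) ≤ 4 / (1 + n) := by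
  have hn0 : (0 : ℝ) ≤ n := Nat.cast_nonneg n
  have hpos : (0 : ℝ) < 1 / (1 + n) := by positivity
  have h4 : (4 : ℝ) / (1 + n) = 4 * (1 / (1 + n)) := by ring
  rw [h4, BoundedContinuousFunction.dist_le (by positivity)]
  intro x
  rw [Real.dist_eq, Phi_apply, Psi_apply]
  have hpow : ∀ m : ℕ, n ≤ m → ((1 : ℝ) / 2) ^ m ≤ 1 / (1 + n) := fun m hm =>
    (pow_le_pow_of_le_one (by norm_num) (by norm_num) hm).trans (half_pow_le n)
  have hiff : ∀ m ≤ n, ∀ h : ℕ → ℝ, (∀ i < m, g i = h i) ↔ ∀ i < m, f i = h i := by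
    intro m hmn h
    constructor
    · intro h1 i hi; rw [← hag i (by omega)]; exact h1 i hi
    · intro h1 i hi; rw [hag i (by omega)]; exact h1 i hi
  have hone : ∀ m < n, cl (t - m) = 1 := fun m hm => cl_of_one_le (by
    have : ((m : ℝ) + 1) ≤ n := by exact_mod_cast hm
    linarith)
  have hb1 : ∀ m, n ≤ m → ∀ h, |phiFun g t k w (.a m h)| ≤ 1 / (1 + n) := by
    intro m hm h
    simp only [phiFun]
    split_ifs
    · rw [abs_of_nonneg (mul_nonneg (half_pow_pos m).le (cl_nonneg _))]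
      calc _ ≤ (1 / 2) ^ m * (1 : ℝ) :=
            mul_le_mul_of_nonneg_left (cl_le_one _) (half_pow_pos m).le
        _ ≤ _ := by rw [mul_one]; exact hpow m hm
    · simpa using hpos.le
  have hb2 : ∀ m, n ≤ m → ∀ h, |psiFun f (.a m h)| ≤ 1 / (1 + n) := by
    intro m hm h
    simp only [psiFun]
    split_ifs
    · rw [abs_of_nonneg (half_pow_pos m).le]; exact hpow m hm
    · simpa using hpos.le
  cases x with
  | a m h =>
    rcases lt_or_ge m n with hmn | hmn
    · simp only [phiFun, psiFun, hiff m hmn.le, hone m hmn, mul_one, sub_self, abs_zero]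
      positivity
    · refine (abs_sub _ _).trans ?_
      linarith [hb1 m hmn h, hb2 m hmn h]
  | b m h =>
    rcases lt_or_ge m n with hmn | hmn
    · simp only [phiFun, psiFun, hiff m hmn.le, hone m hmn, mul_one, hag m hmn, sub_self, abs_zero]
      positivity
    · have e1 : phiFun g t k w (.b m h) = phiFun g t k w (.a m h) * Real.arctan (g m) :=
        phi_b g t k w m h
      have e2 : psiFun f (.b m h) = psiFun f (.a m h) * Real.arctan (f m) := psi_b f m h
      rw [e1, e2]
      refine (abs_sub _ _).trans ?_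
      rw [abs_mul, abs_mul]
      have i1 := mul_le_mul (hb1 m hmn h) (arctan_abs_lt (g m)).le (abs_nonneg _) hpos.le
      have i2 := mul_le_mul (hb2 m hmn h) (arctan_abs_lt (f m)).le (abs_nonneg _) hpos.le
      linarith
  | c k' =>
    simp only [phiFun, psiFun, sub_zero]
    split_ifs
    · rw [abs_of_pos (om_pos t)]
      exact (om_le n ht).trans (by linarith)
    · simp only [abs_zero]; positivity
  | d k' i =>
    simp only [phiFun, psiFun, sub_zero]
    split_ifs
    · rw [abs_mul, abs_of_pos (om_pos t)]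
      have i1 := mul_le_mul (om_le n ht) (arctan_abs_lt (w i)).le (abs_nonneg _) hpos.le
      linarith
    · simp only [abs_zero]; positivity

theorem dist_psi_psi {f g : ℕ → ℝ} {n : ℕ} (hag : ∀ i < n, g i = f i) :
    dist (Psi g) (Psi f) ≤ 4 / (1 + n) := by
  have hn0 : (0 : ℝ) ≤ n := Nat.cast_nonneg n
  have hpos : (0 : ℝ) < 1 / (1 + n) := by positivity
  have h4 : (4 : ℝ) / (1 + n) = 4 * (1 / (1 + n)) := by ring
  rw [h4, BoundedContinuousFunction.dist_le (by positivity)]
  intro x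
  rw [Real.dist_eq, Psi_apply, Psi_apply]
  have hpow : ∀ m : ℕ, n ≤ m → ((1 : ℝ) / 2) ^ m ≤ 1 / (1 + n) := fun m hm =>
    (pow_le_pow_of_le_one (by norm_num) (by norm_num) hm).trans (half_pow_le n)
  have hiff : ∀ m ≤ n, ∀ h : ℕ → ℝ, (∀ i < m, g i = h i) ↔ ∀ i < m, f i = h i := by
    intro m hmn h
    constructor
    · intro h1 i hi; rw [← hag i (by omega)]; exact h1 i hi
    · intro h1 i hi; rw [hag i (by omega)]; exact h1 i hi
  have hb2 : ∀ f : ℕ → ℝ, ∀ m, n ≤ m → ∀ h, |psiFun f (.a m h)| ≤ 1 / (1 + n) := by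
    intro f m hm h
    simp only [psiFun]
    split_ifs
    · rw [abs_of_nonneg (half_pow_pos m).le]; exact hpow m hm
    · simpa using hpos.le
  cases x with
  | a m h =>
    rcases lt_or_ge m n with hmn | hmn
    · simp only [psiFun, hiff m hmn.le, sub_self, abs_zero]
      positivity
    · refine (abs_sub _ _).trans ?_
      linarith [hb2 g m hmn h, hb2 f m hmn h]
  | b m h =>
    rcases lt_or_ge m n with hmn | hmn
    · simp only [psiFun, hiff m hmn.le, hag m hmn, sub_self, abs_zero]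
      positivity
    · have e1 : psiFun g (.b m h) = psiFun g (.a m h) * Real.arctan (g m) := psi_b g m h
      have e2 : psiFun f (.b m h) = psiFun f (.a m h) * Real.arctan (f m) := psi_b f m h
      rw [e1, e2]
      refine (abs_sub _ _).trans ?_
      rw [abs_mul, abs_mul]
      have i1 := mul_le_mul (hb2 g m hmn h) (arctan_abs_lt (g m)).le (abs_nonneg _) hpos.le
      have i2 := mul_le_mul (hb2 f m hmn h) (arctan_abs_lt (f m)).le (abs_nonneg _) hpos.le
      linarith
  | c k' => simp only [psiFun, sub_self, abs_zero]; positivity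
  | d k' i => simp only [psiFun, sub_self, abs_zero]; positivity

end Pool.Agent.LibTD67
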