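import Pool.Agent.LibTD67.TD
import Pool.Agent.LibTD67.Phi

set_option autoImplicit false

/-! The set `M`. -/

namespace Pool.Agent.LibTD67

open Set

/-- the conditions on a finite point of `M`. -/
def Good (f : ℕ → ℝ) (t : ℝ) : Prop :=
  0 < t ∧ (∀ i : ℕ, (i : ℝ) + 1 < t → Irrational (f i)) ∧
    (∀ j : ℕ, t = (j : ℝ) + 1 → ¬ Irrational (f j))

/-- the set `M`: all points but the gates. -/
def Mset : Set E :=
  {x | ∃ f t k w, Good f t ∧ x = Phi f t k w} ∪ {x | ∃ f : ℕ → ℝ, (∀ i, Irrational (f i)) ∧ x = Psi f}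

theorem mem_Mset_phi {f : ℕ → ℝ} {t : ℝ} (k : ℕ) (w : ℕ → ℝ) (h : Good f t) :
    Phi f t k w ∈ Mset := Or.inl ⟨f, t, k, w, h, rfl⟩

theorem mem_Mset_psi {f : ℕ → ℝ} (h : ∀ i, Irrational (f i)) : Psi f ∈ Mset :=
  Or.inr ⟨f, h, rfl⟩

end Pool.Agent.LibTD67
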