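import Pool.Agent.LibTD67.Defs

set_option autoImplicit false

/-! A `G_δ` set containing `M` contains all the gates along some branch. -/

namespace Pool.Agent.LibTD67

open Set Filter Topology

/-- the parameters of the cubes -/
def Kw : Set (ℕ → ℝ) := {w | ∀ i, w i ∈ Icc (0 : ℝ) 1}

theorem isCompact_Kw : IsCompact Kw := by
  have : Kw = Set.pi univ fun _ : ℕ => Icc (0 : ℝ) 1 := by
    ext x
    constructor
    · intro h i _; exact h i
    · intro h i; exact h i (mem_univ i)
  rw [this]
  exact isCompact_univ_pi fun _ => isCompact_Icc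

theorem continuous_gate (f : ℕ → ℝ) (n k : ℕ) :
    Continuous fun p : ℝ × (ℕ → ℝ) => Phi (Function.update f n p.1) (n + 1) k p.2 := by
  rw [continuous_iff_continuousAt]
  intro p0
  rw [ContinuousAt, Metric.tendsto_nhds]
  intro ε hε
  have hη : (0 : ℝ) < ε / 4 := by positivity
  have h1 : ∀ᶠ p : ℝ × (ℕ → ℝ) in 𝓝 p0, |p.1 - p0.1| < ε / 4 := by
    have hc : Continuous fun p : ℝ × (ℕ → ℝ) => |p.1 - p0.1| := by fun_prop
    exact (hc.tendsto p0).eventually_lt_const (by simpa using hη)
  have h2 : ∀ᶠ p : ℝ × (ℕ → ℝ) in 𝓝 p0, ∀ i ∈ Finset.range k, |p.2 i - p0.2 i| < ε / 4 := by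
    rw [Filter.eventually_all_finset]
    intro i _
    have hc : Continuous fun p : ℝ × (ℕ → ℝ) => |p.2 i - p0.2 i| := by fun_prop
    exact (hc.tendsto p0).eventually_lt_const (by simpa using hη)
  filter_upwards [h1, h2] with p hp1 hp2
  have := dist_phi_le (f := Function.update f n p0.1) (g := Function.update f n p.1)
    (t := (n : ℝ) + 1) (t' := (n : ℝ) + 1) (k := k) (n := n) (w := p0.2) (w' := p.2) (η := ε / 4)
    (fun i hi => by
      rw [Function.update_of_ne (by omega), Function.update_of_ne (by omega)]) le_rfl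
    (by simpa using hη.le) (by
      rw [Function.update_self, Function.update_self]; exact hp1.le)
    (fun i hi => (hp2 i (Finset.mem_range.2 hi)).le)
  linarith

theorem continuous_path (f : ℕ → ℝ) (k : ℕ) :
    Continuous fun p : ℝ × (ℕ → ℝ) => Phi f p.1 k p.2 := by
  rw [continuous_iff_continuousAt]
  intro p0
  rw [ContinuousAt, Metric.tendsto_nhds]
  intro ε hε
  have hη : (0 : ℝ) < ε / 4 := by positivity
  have h1 : ∀ᶠ p : ℝ × (ℕ → ℝ) in 𝓝 p0, |p.1 - p0.1| < ε / 4 := by
    have hc : Continuous fun p : ℝ × (ℕ → ℝ) => |p.1 - p0.1| := by fun_prop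
    exact (hc.tendsto p0).eventually_lt_const (by simpa using hη)
  have h2 : ∀ᶠ p : ℝ × (ℕ → ℝ) in 𝓝 p0, ∀ i ∈ Finset.range k, |p.2 i - p0.2 i| < ε / 4 := by
    rw [Filter.eventually_all_finset]
    intro i _
    have hc : Continuous fun p : ℝ × (ℕ → ℝ) => |p.2 i - p0.2 i| := by fun_prop
    exact (hc.tendsto p0).eventually_lt_const (by simpa using hη)
  filter_upwards [h1, h2] with p hp1 hp2
  have := dist_phi_le (f := f) (g := f)
    (t := p0.1) (t' := p.1) (k := k) (n := ⌈p0.1⌉₊) (w := p0.2) (w' := p.2) (η := ε / 4)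
    (fun _ _ => rfl) (by linarith [Nat.le_ceil p0.1]) hp1.le (by simpa using hη.le)
    (fun i hi => (hp2 i (Finset.mem_range.2 hi)).le)
  linarith

theorem isOpen_forall_gate (f : ℕ → ℝ) (n k : ℕ) {G : Set E} (hG : IsOpen G) :
    IsOpen {y : ℝ | ∀ w ∈ Kw, Phi (Function.update f n y) (n + 1) k w ∈ G} := by
  rw [isOpen_iff_forall_mem_open]
  intro y hy
  obtain ⟨u, v, hu, -, hyu, hKv, huv⟩ := generalized_tube_lemma (isCompact_singleton (x := y))
    isCompact_Kw (hG.preimage (continuous_gate f n k)) (by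
      rintro ⟨y', w⟩ ⟨h1, h2⟩
      rw [mem_singleton_iff] at h1
      dsimp only at h1
      subst h1
      exact hy w h2)
  exact ⟨u, fun y' hy' w hw => huv (Set.mk_mem_prod hy' (hKv hw)), hu,
    hyu (mem_singleton y)⟩

theorem gate_exists {M' : Set E} (hG : IsGδ M') (hM : Mset ⊆ M') (n : ℕ) (f : ℕ → ℝ)
    (hf : ∀ i < n, Irrational (f i)) :
    ∃ y, Irrational y ∧ ∀ k, ∀ w ∈ Kw, Phi (Function.update f n y) (n + 1) k w ∈ M' := by
  obtain ⟨G, hGo, rfl⟩ := hG.eq_iInter_nat
  let O : ℕ × ℕ → Set ℝ := fun p =>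
    {y : ℝ | ∀ w ∈ Kw, Phi (Function.update f n y) (n + 1) p.2 w ∈ G p.1}
  have hO : ∀ p, IsOpen (O p) := fun p => isOpen_forall_gate f n p.2 (hGo p.1)
  have hOd : ∀ p, Dense (O p) := by
    intro p
    refine (Rat.denseRange_cast (𝕜 := ℝ)).mono ?_
    rintro _ ⟨q, rfl⟩
    intro w _
    have hgood : Good (Function.update f n (q : ℝ)) ((n : ℝ) + 1) := by
      refine ⟨by positivity, ?_, ?_⟩
      · intro i hi
        have hin : i < n := by
          have : (i : ℝ) < n := by linarith
          exact_mod_cast this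
        rw [Function.update_of_ne (by omega)]
        exact hf i hin
      · intro j hj
        have : n = j := by
          have : (n : ℝ) = j := by linarith
          exact_mod_cast this
        subst this
        rw [Function.update_self]
        exact Rat.not_irrational q
    exact mem_iInter.1 (hM (mem_Mset_phi p.2 w hgood)) p.1
  have h1 : Dense (⋂ p, O p) := dense_iInter_of_isOpen hO hOd
  have h2 : IsGδ (⋂ p, O p) := IsGδ.iInter_of_isOpen hO
  obtain ⟨y, hy1, hy2⟩ := (Dense.inter_of_Gδ h2 IsGδ.setOfPred_irrational h1 dense_irrational).nonempty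
  refine ⟨y, hy2, fun k w hw => mem_iInter.2 fun j => ?_⟩
  exact mem_iInter.1 hy1 (j, k) w hw

theorem branch_exists {M' : Set E} (hG : IsGδ M') (hM : Mset ⊆ M') :
    ∃ f : ℕ → ℝ, (∀ i, Irrational (f i)) ∧
      ∀ (t : ℝ) (k : ℕ), 0 < t → ∀ w ∈ Kw, Phi f t k w ∈ M' := by
  have hex := gate_exists hG hM
  choose! yv hy1 hy2 using hex
  let F : ℕ → (ℕ → ℝ) := fun n => Nat.rec (fun _ => 0) (fun n F => Function.update F n (yv n F)) n
  have hF : ∀ n, F (n + 1) = Function.update (F n) n (yv n (F n)) := fun n => rfl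
  let f : ℕ → ℝ := fun i => F (i + 1) i
  have hFf : ∀ n, ∀ i < n, F n i = f i := by
    intro n
    induction n with
    | zero => intro i hi; omega
    | succ n ih =>
      intro i hi
      rcases Nat.lt_succ_iff_lt_or_eq.1 hi with h | h
      · rw [hF, Function.update_of_ne (by omega)]
        exact ih i h
      · subst h; rfl
  have hirr : ∀ n, ∀ i < n, Irrational (F n i) := by
    intro n
    induction n with
    | zero => intro i hi; omega
    | succ n ih =>
      intro i hi
      rcases Nat.lt_succ_iff_lt_or_eq.1 hi with h | h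
      · rw [hF, Function.update_of_ne (by omega)]
        exact ih i h
      · subst h
        rw [hF, Function.update_self]
        exact hy1 i (F i) ih
  have hfirr : ∀ i, Irrational (f i) := fun i => hirr (i + 1) i (by omega)
  refine ⟨f, hfirr, fun t k ht w hw => ?_⟩
  by_cases hj : ∃ j : ℕ, t = (j : ℝ) + 1
  · obtain ⟨j, rfl⟩ := hj
    have h := hy2 j (F j) (hirr j) k w hw
    rw [← hF] at h
    have he : Phi f ((j : ℝ) + 1) k w = Phi (F (j + 1)) ((j : ℝ) + 1) k w := by
      refine Phi_congr (fun i hi => ?_) k fun _ _ => rfl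
      have : i < j + 1 := by
        have : (i : ℝ) < ((j + 1 : ℕ) : ℝ) := by push_cast; exact hi
        exact_mod_cast this
      exact (hFf (j + 1) i this).symm
    rw [he]
    exact h
  · push Not at hj
    exact hM (mem_Mset_phi k w ⟨ht, fun i _ => hfirr i, fun j hj' => absurd hj' (hj j)⟩)

end Pool.Agent.LibTD67
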