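import Pool.Agent.LibTD67.TD

set_option autoImplicit false

/-! A compact set with `trind ≤ d` has the separation property `Sep (d+1)`. -/

namespace Pool.Agent.LibTD67

open Set

variable {X : Type} [TopologicalSpace X]

/-- a cover of `L` by closed sets separating the given pairs. -/
def SepFor {d : ℕ} (L : Set X) (A B : Fin d → Set X) : Prop :=
  ∃ A' B' : Fin d → Set X, (∀ i, IsClosed (A' i)) ∧ (∀ i, IsClosed (B' i)) ∧
    (∀ i, A' i ⊆ L) ∧ (∀ i, B' i ⊆ L) ∧ (∀ i, A i ∩ L ⊆ A' i) ∧ (∀ i, B i ∩ L ⊆ B' i) ∧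
    (∀ i, Disjoint (A' i) (B' i)) ∧ L ⊆ ⋃ i, (A' i ∪ B' i)

/-- `Sep d L`: any `d` pairs can be separated by a closed cover. -/
def Sep (d : ℕ) (L : Set X) : Prop :=
  ∀ A B : Fin d → Set X, (∀ i, IsClosed (A i)) → (∀ i, IsClosed (B i)) →
    (∀ i, Disjoint (A i ∩ L) (B i ∩ L)) → SepFor L A B

theorem sep_empty (d : ℕ) : Sep d (∅ : Set X) := by
  intro A B _ _ _
  refine ⟨fun _ => ∅, fun _ => ∅, ?_, ?_, ?_, ?_, ?_, ?_, ?_, ?_⟩ <;> simp

theorem sep_union {d : ℕ} {L M : Set X} (hL : Sep d L) (hM : Sep d M) : Sep d (L ∪ M) := by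
  intro A B hA hB hAB
  obtain ⟨A1, B1, hA1, hB1, hA1L, hB1L, hAA1, hBB1, hd1, hc1⟩ := hL A B hA hB fun i =>
    (hAB i).mono (inter_subset_inter_right _ subset_union_left)
      (inter_subset_inter_right _ subset_union_left)
  obtain ⟨A2, B2, hA2, hB2, hA2L, hB2L, hAA2, hBB2, hd2, hc2⟩ :=
    hM (fun i => A i ∪ A1 i) (fun i => B i ∪ B1 i) (fun i => (hA i).union (hA1 i))
      (fun i => (hB i).union (hB1 i)) (by
        intro i
        rw [Set.disjoint_left]
        rintro x ⟨hxA, hxM⟩ ⟨hxB, -⟩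
        have key1 : ∀ x, x ∈ A1 i → x ∉ B1 i := fun x h1 h2 => (Set.disjoint_left.1 (hd1 i)) h1 h2
        rcases hxA with hxA | hxA <;> rcases hxB with hxB | hxB
        · exact (Set.disjoint_left.1 (hAB i)) ⟨hxA, Or.inr hxM⟩ ⟨hxB, Or.inr hxM⟩
        · exact key1 x (hAA1 i ⟨hxA, hB1L i hxB⟩) hxB
        · exact key1 x hxA (hBB1 i ⟨hxB, hA1L i hxA⟩)
        · exact key1 x hxA hxB)
  refine ⟨fun i => A1 i ∪ A2 i, fun i => B1 i ∪ B2 i, fun i => (hA1 i).union (hA2 i),
    fun i => (hB1 i).union (hB2 i), fun i => union_subset_union (hA1L i) (hA2L i),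
    fun i => union_subset_union (hB1L i) (hB2L i), ?_, ?_, ?_, ?_⟩
  · rintro i x ⟨hx, hxL | hxM⟩
    · exact Or.inl (hAA1 i ⟨hx, hxL⟩)
    · exact Or.inr (hAA2 i ⟨Or.inl hx, hxM⟩)
  · rintro i x ⟨hx, hxL | hxM⟩
    · exact Or.inl (hBB1 i ⟨hx, hxL⟩)
    · exact Or.inr (hBB2 i ⟨Or.inl hx, hxM⟩)
  · intro i
    rw [Set.disjoint_left]
    have key1 : ∀ x, x ∈ A1 i → x ∉ B1 i := fun x h1 h2 => (Set.disjoint_left.1 (hd1 i)) h1 h2
    have key2 : ∀ x, x ∈ A2 i → x ∉ B2 i := fun x h1 h2 => (Set.disjoint_left.1 (hd2 i)) h1 h2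
    rintro x (hxA | hxA) (hxB | hxB)
    · exact key1 x hxA hxB
    · exact key2 x (hAA2 i ⟨Or.inr hxA, hB2L i hxB⟩) hxB
    · exact key2 x hxA (hBB2 i ⟨Or.inr hxB, hA2L i hxA⟩)
    · exact key2 x hxA hxB
  · rintro x (hx | hx)
    · obtain ⟨i, hi⟩ := mem_iUnion.1 (hc1 hx)
      refine mem_iUnion.2 ⟨i, ?_⟩
      rcases hi with hi | hi
      · exact Or.inl (Or.inl hi)
      · exact Or.inr (Or.inl hi)
    · obtain ⟨i, hi⟩ := mem_iUnion.1 (hc2 hx)
      refine mem_iUnion.2 ⟨i, ?_⟩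
      rcases hi with hi | hi
      · exact Or.inl (Or.inr hi)
      · exact Or.inr (Or.inr hi)

theorem sep_biUnion {d : ℕ} {ι : Type*} (s : Finset ι) (F : ι → Set X)
    (h : ∀ i ∈ s, Sep d (F i)) : Sep d (⋃ i ∈ s, F i) := by
  classical
  induction s using Finset.induction_on with
  | empty => simpa using sep_empty d
  | insert a s ha ih =>
    rw [Finset.set_biUnion_insert]
    exact sep_union (h a (Finset.mem_insert_self a s))
      (ih fun i hi => h i (Finset.mem_insert_of_mem hi))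

theorem sep_step [NormalSpace X] {d : ℕ} {K F V A0 B0 : Set X} (hK : IsClosed K) (hV : IsOpen V)
    (hA0 : IsClosed A0) (hB0 : IsClosed B0) (hA0V : A0 ∩ K ⊆ V)
    (hB0V : ∀ x ∈ closure (V ∩ K), x ∈ K → x ∉ B0) (hF : Sep d F) (hFK : F ⊆ K)
    (hbd : bd K V ⊆ F) (A B : Fin d → Set X) (hA : ∀ i, IsClosed (A i))
    (hB : ∀ i, IsClosed (B i)) (hAB : ∀ i, Disjoint (A i ∩ K) (B i ∩ K)) :
    SepFor K (Fin.cons A0 A : Fin (d + 1) → Set X) (Fin.cons B0 B : Fin (d + 1) → Set X) := by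
  obtain ⟨A1, B1, hA1, hB1, hA1L, hB1L, hAA1, hBB1, hd1, hc1⟩ := hF A B hA hB fun i =>
    (hAB i).mono (inter_subset_inter_right _ hFK) (inter_subset_inter_right _ hFK)
  have key1 : ∀ i x, x ∈ A1 i → x ∉ B1 i := fun i x h1 h2 =>
    (Set.disjoint_left.1 (hd1 i)) h1 h2
  -- neighbourhoods
  have hex : ∀ i, ∃ OP OQ : Set X, IsOpen OP ∧ IsOpen OQ ∧ (A i ∩ K) ∪ A1 i ⊆ OP ∧
      (B i ∩ K) ∪ B1 i ⊆ OQ ∧ Disjoint (closure OP) (closure OQ) := by
    intro i
    have hP : IsClosed ((A i ∩ K) ∪ A1 i) := ((hA i).inter hK).union (hA1 i)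
    have hQ : IsClosed ((B i ∩ K) ∪ B1 i) := ((hB i).inter hK).union (hB1 i)
    have hPQ : ∀ x, x ∈ (A i ∩ K) ∪ A1 i → x ∉ (B i ∩ K) ∪ B1 i := by
      rintro x (hx | hx) (hx' | hx')
      · exact (Set.disjoint_left.1 (hAB i)) hx hx'
      · exact key1 i x (hAA1 i ⟨hx.1, hB1L i hx'⟩) hx'
      · exact key1 i x hx (hBB1 i ⟨hx'.1, hA1L i hx⟩)
      · exact key1 i x hx hx'
    obtain ⟨OP, hOP, hPO, hOPc⟩ := normal_exists_closure_subset hP hQ.isOpen_compl
      (fun x hx => hPQ x hx)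
    obtain ⟨OQ, hOQ, hQO, hOQc⟩ := normal_exists_closure_subset hQ
      (isClosed_closure (s := OP)).isOpen_compl (fun x hx hx' => hOPc hx' hx)
    refine ⟨OP, OQ, hOP, hOQ, hPO, hQO, ?_⟩
    rw [Set.disjoint_left]
    intro x hx hx'
    exact hOQc hx' hx
  choose OP OQ hOP hOQ hPO hQO hdis using hex
  set N : Set X := ⋃ i, (OP i ∪ OQ i) with hN
  have hNo : IsOpen N := isOpen_iUnion fun i => (hOP i).union (hOQ i)
  have hFN : F ⊆ N := by
    intro x hx
    obtain ⟨i, hi⟩ := mem_iUnion.1 (hc1 hx)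
    refine mem_iUnion.2 ⟨i, ?_⟩
    rcases hi with hi | hi
    · exact Or.inl (hPO i (Or.inr hi))
    · exact Or.inr (hQO i (Or.inr hi))
  have hcK : closure (V ∩ K) ⊆ K := closure_minimal inter_subset_right hK
  refine ⟨Fin.cons ((A0 ∩ K) ∪ (closure (V ∩ K) \ N)) fun i => closure (OP i) ∩ K,
    Fin.cons ((B0 ∩ K) ∪ (K \ (V ∪ N))) fun i => closure (OQ i) ∩ K, ?_, ?_, ?_, ?_, ?_, ?_, ?_, ?_⟩
  · intro i
    refine Fin.cases ?_ (fun i => ?_) i
    · simp only [Fin.cons_zero]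
      exact (hA0.inter hK).union (isClosed_closure.sdiff hNo)
    · simp only [Fin.cons_succ]
      exact isClosed_closure.inter hK
  · intro i
    refine Fin.cases ?_ (fun i => ?_) i
    · simp only [Fin.cons_zero]
      exact (hB0.inter hK).union (hK.sdiff (hV.union hNo))
    · simp only [Fin.cons_succ]
      exact isClosed_closure.inter hK
  · intro i
    refine Fin.cases ?_ (fun i => ?_) i
    · simp only [Fin.cons_zero]
      exact union_subset inter_subset_right (sdiff_subset.trans hcK)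
    · simp only [Fin.cons_succ]
      exact inter_subset_right
  · intro i
    refine Fin.cases ?_ (fun i => ?_) i
    · simp only [Fin.cons_zero]
      exact union_subset inter_subset_right sdiff_subset
    · simp only [Fin.cons_succ]
      exact inter_subset_right
  · intro i
    refine Fin.cases ?_ (fun i => ?_) i
    · simp only [Fin.cons_zero]
      exact subset_union_left
    · simp only [Fin.cons_succ]
      rintro x ⟨hx, hxK⟩
      exact ⟨subset_closure (hPO i (Or.inl ⟨hx, hxK⟩)), hxK⟩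
  · intro i
    refine Fin.cases ?_ (fun i => ?_) i
    · simp only [Fin.cons_zero]
      exact subset_union_left
    · simp only [Fin.cons_succ]
      rintro x ⟨hx, hxK⟩
      exact ⟨subset_closure (hQO i (Or.inl ⟨hx, hxK⟩)), hxK⟩
  · intro i
    refine Fin.cases ?_ (fun i => ?_) i
    · simp only [Fin.cons_zero]
      rw [Set.disjoint_left]
      rintro x (hx | hx) (hx' | hx')
      · exact hB0V x (subset_closure ⟨hA0V hx, hx.2⟩) hx.2 hx'.1
      · exact hx'.2 (Or.inl (hA0V hx))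
      · exact hB0V x hx.1 (hcK hx.1) hx'.1
      · exact hx.2 (hFN (hbd ⟨⟨hcK hx.1, hx.1⟩, fun h => hx'.2 (Or.inl h)⟩))
    · simp only [Fin.cons_succ]
      exact (hdis i).mono inter_subset_left inter_subset_left
  · intro x hx
    by_cases hxN : x ∈ N
    · obtain ⟨i, hi⟩ := mem_iUnion.1 hxN
      refine mem_iUnion.2 ⟨i.succ, ?_⟩
      simp only [Fin.cons_succ]
      rcases hi with hi | hi
      · exact Or.inl ⟨subset_closure hi, hx⟩
      · exact Or.inr ⟨subset_closure hi, hx⟩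
    · refine mem_iUnion.2 ⟨0, ?_⟩
      simp only [Fin.cons_zero]
      by_cases hxV : x ∈ V
      · exact Or.inl (Or.inr ⟨subset_closure ⟨hxV, hx⟩, hxN⟩)
      · exact Or.inr (Or.inr ⟨hx, fun h => h.elim hxV hxN⟩)

/-- compact sets of small transfinite dimension `≤ d` have `Sep (d+1)`. -/
theorem sep_of_td [T4Space X] : ∀ (d : ℕ) (L : Set X), IsCompact L →
    (L = ∅ ∨ ∃ β : Ordinal.{0}, β < d ∧ TD L β) → Sep d L := by
  intro d
  induction d with
  | zero =>
    rintro L hL (rfl | ⟨β, hβ, -⟩)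
    · exact sep_empty 0
    · simp at hβ
  | succ d ih =>
    rintro L hL (rfl | ⟨β, hβ, hT⟩)
    · exact sep_empty _
    · intro A B hA hB hAB
      have hLc : IsClosed L := hL.isClosed
      have hβd : β ≤ d := by
        rw [Nat.cast_succ] at hβ
        exact Order.lt_add_one_iff.1 hβ
      -- neighbourhoods of the points of A 0
      have h1 : ∀ x ∈ A 0 ∩ L, ∃ V : Set X, IsOpen V ∧ x ∈ V ∧
          (∀ z ∈ closure (V ∩ L), z ∈ L → z ∉ B 0) ∧ Sep d (bd L V) := by
        rintro x ⟨hxA, hxL⟩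
        have hxB : x ∈ (B 0 ∩ L)ᶜ := fun h => (Set.disjoint_left.1 (hAB 0)) ⟨hxA, hxL⟩ h
        obtain ⟨U, hU, hxU, hUc⟩ := normal_exists_closure_subset (isClosed_singleton (x := x))
          ((hB 0).inter hLc).isOpen_compl (singleton_subset_iff.2 hxB)
        obtain ⟨V, hV, hxV, hVU, hb⟩ := td_elim hT x hxL U hU (singleton_subset_iff.1 hxU)
        refine ⟨V, hV, hxV, fun z hz hzL hzB => hUc (closure_mono hVU hz) ⟨hzB, hzL⟩, ?_⟩
        refine ih _ ?_ ?_
        · exact (hL.inter_right isClosed_closure).diff hV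
        · rcases hb with hb | ⟨β', hβ', hb⟩
          · exact Or.inl hb
          · exact Or.inr ⟨β', hβ'.trans_le hβd, hb⟩
      choose! V hV hxV hVB hVs using h1
      have hcomp : IsCompact (A 0 ∩ L) := hL.inter_left (hA 0)
      obtain ⟨s, hs, hcov⟩ := hcomp.elim_nhds_subcover V fun x hx => (hV x hx).mem_nhds (hxV x hx)
      have hres := sep_step (d := d) (K := L) (F := ⋃ x ∈ s, bd L (V x)) (V := ⋃ x ∈ s, V x)
        (A0 := A 0) (B0 := B 0) hLc (isOpen_biUnion fun x hx => hV x (hs x hx)) (hA 0) (hB 0) hcov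
        ?_ (sep_biUnion s _ fun x hx => hVs x (hs x hx)) ?_ ?_ (fun i => A i.succ)
        (fun i => B i.succ) (fun i => hA _) (fun i => hB _) (fun i => hAB _)
      · have eA : (Fin.cons (A 0) (fun i => A i.succ) : Fin (d + 1) → Set X) = A := by
          funext i; refine Fin.cases ?_ (fun i => ?_) i <;> simp
        have eB : (Fin.cons (B 0) (fun i => B i.succ) : Fin (d + 1) → Set X) = B := by
          funext i; refine Fin.cases ?_ (fun i => ?_) i <;> simp
        rw [eA, eB] at hres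
        exact hres
      · intro z hz hzL
        rw [iUnion₂_inter] at hz
        have : closure (⋃ x ∈ s, V x ∩ L) = ⋃ x ∈ s, closure (V x ∩ L) :=
          s.finite_toSet.closure_biUnion _
        rw [this] at hz
        obtain ⟨x, hx, hz⟩ := mem_iUnion₂.1 hz
        exact hVB x (hs x hx) z hz hzL
      · exact iUnion₂_subset fun x _ z hz => hz.1.1
      · rintro z ⟨⟨hzL, hz⟩, hzV⟩
        rw [iUnion₂_inter] at hz
        have : closure (⋃ x ∈ s, V x ∩ L) = ⋃ x ∈ s, closure (V x ∩ L) :=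
          s.finite_toSet.closure_biUnion _
        rw [this] at hz
        obtain ⟨x, hx, hz⟩ := mem_iUnion₂.1 hz
        exact mem_iUnion₂.2 ⟨x, hx, ⟨hzL, hz⟩, fun h => hzV (mem_iUnion₂.2 ⟨x, hx, h⟩)⟩

end Pool.Agent.LibTD67
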