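import Pool.Agent.LibTD67.Defs

set_option autoImplicit false

/-! `trind M ≤ ω`. -/

namespace Pool.Agent.LibTD67

open Set

/-! ### the ends -/

theorem end_small {f : ℕ → ℝ} {U : Set E} (hU : IsOpen U) (hx : Psi f ∈ U) :
    ∃ n : ℕ, {x : E | 0 < x (.a (n + 1) f)} ∩ Mset ⊆ U := by
  obtain ⟨ε, hε, hb⟩ := Metric.isOpen_iff.1 hU _ hx
  obtain ⟨n, hn⟩ := exists_nat_gt (4 / ε)
  have hlt : 4 / (1 + ((n + 1 : ℕ) : ℝ)) < ε := by
    rw [div_lt_iff₀ (by positivity)]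
    rw [div_lt_iff₀ hε] at hn
    push_cast
    nlinarith
  refine ⟨n, ?_⟩
  rintro x ⟨hxa, ⟨g, t, k, w, hg, rfl⟩ | ⟨g, hg, rfl⟩⟩
  · obtain ⟨h1, h2⟩ := agree_of_phi_a hxa
    exact hb (Metric.mem_ball.2 ((dist_phi_psi h1 h2.le).trans_lt hlt))
  · have h1 := agree_of_psi_a hxa
    exact hb (Metric.mem_ball.2 ((dist_psi_psi h1).trans_lt hlt))

theorem isOpen_a (n : ℕ) (f : ℕ → ℝ) : IsOpen {x : E | 0 < x (.a n f)} :=
  isOpen_lt continuous_const (continuous_ev _)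

theorem end_closed {f : ℕ → ℝ} (m : ℕ) (hf : Irrational (f m)) :
    bd Mset {x : E | 0 < x (.a (m + 1) f)} = ∅ := by
  rw [Set.eq_empty_iff_forall_notMem]
  rintro z ⟨⟨hzM, hzc⟩, hzW⟩
  have hC : closure ({x : E | 0 < x (.a (m + 1) f)} ∩ Mset) ⊆
      {x : E | x (.a m f) = (1 / 2) ^ m ∧ x (.b m f) = (1 / 2) ^ m * Real.arctan (f m)} := by
    refine closure_minimal ?_ ((isClosed_eq (continuous_ev _) continuous_const).inter
      (isClosed_eq (continuous_ev _) continuous_const))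
    rintro x ⟨hxa, ⟨g, t, k, w, hg, rfl⟩ | ⟨g, hg, rfl⟩⟩
    · obtain ⟨h1, h2⟩ := agree_of_phi_a hxa
      have h3 : Phi g t k w (.a m f) = (1 / 2) ^ m := by
        rw [phi_a_of_agree (fun i hi => h1 i (by omega)), cl_of_one_le, mul_one]
        push_cast at h2
        linarith
      refine ⟨h3, ?_⟩
      rw [phi_b, h3, h1 m (by omega)]
    · have h1 := agree_of_psi_a hxa
      have h3 : Psi g (.a m f) = (1 / 2) ^ m := psi_a_of_agree (fun i hi => h1 i (by omega))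
      refine ⟨h3, ?_⟩
      rw [psi_b, h3, h1 m (by omega)]
  obtain ⟨hza, hzb⟩ := hC hzc
  apply hzW
  have hpos := half_pow_pos m
  rcases hzM with ⟨g, t, k, w, hg, rfl⟩ | ⟨g, hg, rfl⟩
  · have hpa : 0 < Phi g t k w (.a m f) := by rw [hza]; exact hpos
    obtain ⟨h1, h2⟩ := agree_of_phi_a hpa
    have ht : (m : ℝ) + 1 ≤ t := by
      rw [phi_a_of_agree h1] at hza
      have : cl (t - m) = 1 := by
        have h3 : (1 / 2 : ℝ) ^ m * cl (t - m) = (1 / 2) ^ m * 1 := by rw [hza, mul_one]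
        exact mul_left_cancel₀ hpos.ne' h3
      linarith [one_le_of_cl this]
    have hgm : g m = f m := by
      rw [phi_b, hza] at hzb
      exact Real.arctan_injective (mul_left_cancel₀ hpos.ne' hzb)
    have hag : ∀ i < m + 1, g i = f i := by
      intro i hi
      rcases Nat.lt_succ_iff_lt_or_eq.1 hi with h | h
      · exact h1 i h
      · rw [h]; exact hgm
    refine phi_a_pos hag ?_ k w
    rcases ht.lt_or_eq with h | h
    · push_cast; exact h
    · exfalso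
      refine hg.2.2 m h.symm ?_
      rw [hgm]; exact hf
  · have hpa : 0 < Psi g (.a m f) := by rw [hza]; exact hpos
    have h1 := agree_of_psi_a hpa
    have hgm : g m = f m := by
      rw [psi_b, hza] at hzb
      exact Real.arctan_injective (mul_left_cancel₀ hpos.ne' hzb)
    have hag : ∀ i < m + 1, g i = f i := by
      intro i hi
      rcases Nat.lt_succ_iff_lt_or_eq.1 hi with h | h
      · exact h1 i h
      · rw [h]; exact hgm
    show 0 < Psi g (.a (m + 1) f)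
    rw [psi_a_of_agree hag]
    exact half_pow_pos _

/-! ### boxes -/

/-- the box -/
def Box (n : ℕ) (f : ℕ → ℝ) (k : ℕ) (t1 t2 y1 y2 : ℝ) (a b : ℕ → ℝ) : Set E :=
  {x : E | om t2 < x (.c k) ∧ x (.c k) < om t1 ∧ 0 < x (.a n f) ∧
    Real.arctan y1 * x (.a n f) < x (.b n f) ∧ x (.b n f) < Real.arctan y2 * x (.a n f) ∧
    ∀ i ∈ Finset.range k, Real.arctan (a i) * x (.c k) < x (.d k i) ∧
      x (.d k i) < Real.arctan (b i) * x (.c k)}

theorem isOpen_Box (n : ℕ) (f : ℕ → ℝ) (k : ℕ) (t1 t2 y1 y2 : ℝ) (a b : ℕ → ℝ) :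
    IsOpen (Box n f k t1 t2 y1 y2 a b) := by
  have h : IsOpen (⋂ i ∈ Finset.range k, {x : E | Real.arctan (a i) * x (.c k) < x (.d k i) ∧
      x (.d k i) < Real.arctan (b i) * x (.c k)}) :=
    isOpen_biInter_finset fun i _ =>
      (isOpen_lt (continuous_const.mul (continuous_ev _)) (continuous_ev _)).inter
        (isOpen_lt (continuous_ev _) (continuous_const.mul (continuous_ev _)))
  have h' : IsOpen {x : E | ∀ i ∈ Finset.range k, Real.arctan (a i) * x (.c k) < x (.d k i) ∧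
      x (.d k i) < Real.arctan (b i) * x (.c k)} := by
    convert h using 1
    ext x
    simp only [mem_ofPred_eq, mem_iInter]
  exact (isOpen_lt continuous_const (continuous_ev _)).inter
    ((isOpen_lt (continuous_ev _) continuous_const).inter
    ((isOpen_lt continuous_const (continuous_ev _)).inter
    ((isOpen_lt (continuous_const.mul (continuous_ev _)) (continuous_ev _)).inter
    ((isOpen_lt (continuous_ev _) (continuous_const.mul (continuous_ev _))).inter h'))))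

/-- the closed box -/
def CBox (n : ℕ) (f : ℕ → ℝ) (k : ℕ) (t1 t2 y1 y2 : ℝ) (a b : ℕ → ℝ) : Set E :=
  {x : E | om t2 ≤ x (.c k) ∧ x (.c k) ≤ om t1 ∧ (1 / 2) ^ n * cl (t1 - n) ≤ x (.a n f) ∧
    Real.arctan y1 * x (.a n f) ≤ x (.b n f) ∧ x (.b n f) ≤ Real.arctan y2 * x (.a n f) ∧
    ∀ i ∈ Finset.range k, Real.arctan (a i) * x (.c k) ≤ x (.d k i) ∧
      x (.d k i) ≤ Real.arctan (b i) * x (.c k)}

theorem isClosed_CBox (n : ℕ) (f : ℕ → ℝ) (k : ℕ) (t1 t2 y1 y2 : ℝ) (a b : ℕ → ℝ) :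
    IsClosed (CBox n f k t1 t2 y1 y2 a b) := by
  have h : IsClosed (⋂ i ∈ Finset.range k, {x : E | Real.arctan (a i) * x (.c k) ≤ x (.d k i) ∧
      x (.d k i) ≤ Real.arctan (b i) * x (.c k)}) :=
    isClosed_biInter fun i _ =>
      (isClosed_le (continuous_const.mul (continuous_ev _)) (continuous_ev _)).inter
        (isClosed_le (continuous_ev _) (continuous_const.mul (continuous_ev _)))
  have h' : IsClosed {x : E | ∀ i ∈ Finset.range k, Real.arctan (a i) * x (.c k) ≤ x (.d k i) ∧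
      x (.d k i) ≤ Real.arctan (b i) * x (.c k)} := by
    convert h using 1
    ext x
    simp only [mem_ofPred_eq, mem_iInter]
  exact (isClosed_le continuous_const (continuous_ev _)).inter
    ((isClosed_le (continuous_ev _) continuous_const).inter
    ((isClosed_le continuous_const (continuous_ev _)).inter
    ((isClosed_le (continuous_const.mul (continuous_ev _)) (continuous_ev _)).inter
    ((isClosed_le (continuous_ev _) (continuous_const.mul (continuous_ev _))).inter h'))))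

section
variable {n : ℕ} {f : ℕ → ℝ} {k : ℕ} {t1 t2 y1 y2 : ℝ} {a b : ℕ → ℝ}

theorem phi_mem_box (hn : (n : ℝ) < t1) (h12 : t1 < t2) {g : ℕ → ℝ} {t : ℝ} {w : ℕ → ℝ}
    (ht : 0 < t) : Phi g t k w ∈ Box n f k t1 t2 y1 y2 a b ↔
      t1 < t ∧ t < t2 ∧ (∀ i < n, g i = f i) ∧ y1 < g n ∧ g n < y2 ∧
        ∀ i < k, a i < w i ∧ w i < b i := by
  have hn0 : (0 : ℝ) ≤ n := Nat.cast_nonneg n
  have hom := om_pos t
  have e1 : om t2 < om t ↔ t < t2 := om_lt_iff ht.le (by linarith)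
  have e2 : om t < om t1 ↔ t1 < t := om_lt_iff (by linarith) ht.le
  have e3 : ∀ i < k, (Real.arctan (a i) * om t < om t * Real.arctan (w i) ↔ a i < w i) := by
    intro i _
    rw [mul_comm (om t), mul_lt_mul_iff_left₀ hom]
    exact Real.arctan_strictMono.lt_iff_lt
  have e4 : ∀ i < k, (om t * Real.arctan (w i) < Real.arctan (b i) * om t ↔ w i < b i) := by
    intro i _
    rw [mul_comm (om t), mul_lt_mul_iff_left₀ hom]
    exact Real.arctan_strictMono.lt_iff_lt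
  constructor
  · rintro ⟨h1, h2, h3, h4, h5, h6⟩
    rw [phi_c] at h1 h2
    obtain ⟨hag, -⟩ := agree_of_phi_a h3
    rw [phi_b, mul_comm (Phi g t k w _) (Real.arctan (g n))] at h4 h5
    refine ⟨e2.1 h2, e1.1 h1, hag, ?_, ?_, fun i hi => ?_⟩
    · exact Real.arctan_strictMono.lt_iff_lt.1 (lt_of_mul_lt_mul_right h4 h3.le)
    · exact Real.arctan_strictMono.lt_iff_lt.1 (lt_of_mul_lt_mul_right h5 h3.le)
    · obtain ⟨h7, h8⟩ := h6 i (Finset.mem_range.2 hi)
      rw [phi_c, phi_d _ _ hi] at h7 h8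
      exact ⟨(e3 i hi).1 h7, (e4 i hi).1 h8⟩
  · rintro ⟨h1, h2, h3, h4, h5, h6⟩
    have hA : 0 < Phi g t k w (.a n f) := phi_a_pos h3 (by linarith) k w
    refine ⟨?_, ?_, hA, ?_, ?_, fun i hi => ⟨?_, ?_⟩⟩
    · rw [phi_c]; exact e1.2 h2
    · rw [phi_c]; exact e2.2 h1
    · rw [phi_b, mul_comm (Phi g t k w _) (Real.arctan (g n))]
      exact mul_lt_mul_of_pos_right (Real.arctan_strictMono h4) hA
    · rw [phi_b, mul_comm (Phi g t k w _) (Real.arctan (g n))]
      exact mul_lt_mul_of_pos_right (Real.arctan_strictMono h5) hA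
    · have hi' := Finset.mem_range.1 hi
      rw [phi_c, phi_d _ _ hi']
      exact (e3 i hi').2 (h6 i hi').1
    · have hi' := Finset.mem_range.1 hi
      rw [phi_c, phi_d _ _ hi']
      exact (e4 i hi').2 (h6 i hi').2

theorem box_cases {x : E} (hx : x ∈ Mset) (hxc : 0 < x (.c k)) :
    ∃ g t w, Good g t ∧ x = Phi g t k w := by
  rcases hx with ⟨g, t, k', w, hg, rfl⟩ | ⟨g, hg, rfl⟩
  · by_cases hk : k = k'
    · subst hk
      exact ⟨g, t, w, hg, rfl⟩
    · rw [phi_c_ne g t hk w] at hxc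
      exact absurd hxc (lt_irrefl _)
  · rw [psi_c] at hxc
    exact absurd hxc (lt_irrefl _)

theorem box_mem (hn : (n : ℝ) < t1) (h12 : t1 < t2) {x : E}
    (hx : x ∈ Box n f k t1 t2 y1 y2 a b) (hxM : x ∈ Mset) :
    ∃ g t w, Good g t ∧ x = Phi g t k w ∧ t1 < t ∧ t < t2 ∧ (∀ i < n, g i = f i) ∧
      y1 < g n ∧ g n < y2 ∧ ∀ i < k, a i < w i ∧ w i < b i := by
  obtain ⟨g, t, w, hg, rfl⟩ := box_cases (k := k) hxM ((om_pos t2).trans hx.1)
  exact ⟨g, t, w, hg, rfl, (phi_mem_box hn h12 hg.1).1 hx⟩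

theorem closure_box (hn : (n : ℝ) < t1) (h12 : t1 < t2) :
    closure (Box n f k t1 t2 y1 y2 a b ∩ Mset) ⊆ CBox n f k t1 t2 y1 y2 a b := by
  refine closure_minimal ?_ (isClosed_CBox n f k t1 t2 y1 y2 a b)
  rintro x ⟨hx, hxM⟩
  obtain ⟨g, t, w, hg, hxe, ht1, ht2, hag, -⟩ := box_mem hn h12 hx hxM
  obtain ⟨h1, h2, h3, h4, h5, h6⟩ := hx
  refine ⟨h1.le, h2.le, ?_, h4.le, h5.le, fun i hi => ⟨(h6 i hi).1.le, (h6 i hi).2.le⟩⟩
  rw [hxe, phi_a_of_agree hag]
  exact mul_le_mul_of_nonneg_left (cl_mono (by linarith)) (half_pow_pos n).le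

theorem box_boundary (hn : (n : ℝ) < t1) (h12 : t1 < t2) {g : ℕ → ℝ} {t : ℝ} {k' : ℕ} {w : ℕ → ℝ}
    (ht : 0 < t) (hz : Phi g t k' w ∈ bd Mset (Box n f k t1 t2 y1 y2 a b)) :
    k' = k ∧ (t = t1 ∨ t = t2 ∨ ((n : ℝ) < t ∧ t ≤ n + 1 ∧ (g n = y1 ∨ g n = y2)) ∨
      ∃ i < k, w i = a i ∨ w i = b i) := by
  obtain ⟨⟨hzM, hzc⟩, hzV⟩ := hz
  have hn0 : (0 : ℝ) ≤ n := Nat.cast_nonneg n
  obtain ⟨h1, h2, h3, h4, h5, h6⟩ := closure_box hn h12 hzc
  have hk : k' = k := by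
    by_contra hk
    rw [phi_c_ne g t (Ne.symm hk) w] at h1
    exact absurd h1 (not_le.2 (om_pos t2))
  subst hk
  refine ⟨rfl, ?_⟩
  have hA : 0 < Phi g t k' w (.a n f) :=
    lt_of_lt_of_le (mul_pos (half_pow_pos n) (cl_pos (by linarith))) h3
  obtain ⟨hag, hnt⟩ := agree_of_phi_a hA
  rw [phi_c] at h1 h2
  have ht2 : t ≤ t2 := (om_le_iff ht.le (by linarith)).1 h1
  have ht1 : t1 ≤ t := (om_le_iff (by linarith) ht.le).1 h2
  rw [phi_b, mul_comm (Phi g t k' w _) (Real.arctan (g n))] at h4 h5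
  have hy1 : y1 ≤ g n := Real.arctan_strictMono.le_iff_le.1 (le_of_mul_le_mul_right h4 hA)
  have hy2 : g n ≤ y2 := Real.arctan_strictMono.le_iff_le.1 (le_of_mul_le_mul_right h5 hA)
  have hw : ∀ i < k', a i ≤ w i ∧ w i ≤ b i := by
    intro i hi
    obtain ⟨h7, h8⟩ := h6 i (Finset.mem_range.2 hi)
    rw [phi_c, phi_d _ _ hi, mul_comm (om t)] at h7 h8
    exact ⟨Real.arctan_strictMono.le_iff_le.1 (le_of_mul_le_mul_right h7 (om_pos t)),
      Real.arctan_strictMono.le_iff_le.1 (le_of_mul_le_mul_right h8 (om_pos t))⟩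
  by_contra hcon
  push Not at hcon
  obtain ⟨c1, c2, c3, c4⟩ := hcon
  have ht1' : t1 < t := lt_of_le_of_ne ht1 (Ne.symm c1)
  have ht2' : t < t2 := lt_of_le_of_ne ht2 c2
  have hw' : ∀ i < k', a i < w i ∧ w i < b i := fun i hi =>
    ⟨lt_of_le_of_ne (hw i hi).1 (Ne.symm (c4 i hi).1), lt_of_le_of_ne (hw i hi).2 (c4 i hi).2⟩
  have hgn : g n = y1 ∨ g n = y2 := by
    by_contra hcon
    push Not at hcon
    exact hzV ((phi_mem_box hn h12 ht).2 ⟨ht1', ht2', hag,
      lt_of_le_of_ne hy1 (Ne.symm hcon.1), lt_of_le_of_ne hy2 hcon.2, hw'⟩)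
  have htn : (n : ℝ) + 1 < t := by
    by_contra hcon
    have := c3 hnt (not_lt.1 hcon)
    rcases hgn with h | h
    · exact this.1 h
    · exact this.2 h
  -- a neighbourhood on which the `n`-th entry is constant
  have hO : Phi g t k' w ∈ {x : E | 0 < x (.a (n + 1) g)} :=
    phi_a_pos (fun _ _ => rfl) (by push_cast; exact htn) k' w
  obtain ⟨x, hxO, hxV, hxM⟩ := mem_closure_iff.1 hzc _ (isOpen_a (n + 1) g) hO
  obtain ⟨g2, s, w2, hg2, rfl, -, -, -, hl, hr, -⟩ := box_mem hn h12 hxV hxM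
  have hag2 := (agree_of_phi_a hxO).1 n (by omega)
  rw [hag2] at hl hr
  rcases hgn with h | h
  · rw [h] at hl; exact lt_irrefl _ hl
  · rw [h] at hr; exact lt_irrefl _ hr

end

/-! ### counting -/

open Classical in
/-- the number of coordinates outside `D` -/
noncomputable def cnt (D : Set ℝ) (f : ℕ → ℝ) (t : ℝ) (k : ℕ) (w : ℕ → ℝ) (n : ℕ) : ℕ :=
  (if t ∈ D then 0 else 1) + (if f n ∈ D then 0 else 1) +
    ((Finset.range k).filter fun i => w i ∉ D).card

theorem cnt_le (D : Set ℝ) (f : ℕ → ℝ) (t : ℝ) (k : ℕ) (w : ℕ → ℝ) (n : ℕ) :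
    cnt D f t k w n ≤ k + 2 := by
  classical
  have h1 : ((Finset.range k).filter fun i => w i ∉ D).card ≤ k := by
    refine (Finset.card_filter_le _ _).trans ?_
    rw [Finset.card_range]
  unfold cnt
  split_ifs <;> omega

theorem cnt_lt {D D' : Set ℝ} (hD : D ⊆ D') {f : ℕ → ℝ} {t : ℝ} {k : ℕ} {w : ℕ → ℝ} {n : ℕ}
    (h : (t ∈ D' ∧ t ∉ D) ∨ (f n ∈ D' ∧ f n ∉ D) ∨ ∃ i < k, w i ∈ D' ∧ w i ∉ D) :
    cnt D' f t k w n + 1 ≤ cnt D f t k w n := by
  classical
  have h1 : ((Finset.range k).filter fun i => w i ∉ D').card ≤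
      ((Finset.range k).filter fun i => w i ∉ D).card :=
    Finset.card_le_card (Finset.monotone_filter_right _ fun i _ hi h' => hi (hD h'))
  have h2 : (if t ∈ D' then 0 else 1) ≤ (if t ∈ D then 0 else (1 : ℕ)) := by
    split_ifs with p q q
    · exact le_rfl
    · exact Nat.zero_le _
    · exact absurd (hD q) p
    · exact le_rfl
  have h3 : (if f n ∈ D' then 0 else 1) ≤ (if f n ∈ D then 0 else (1 : ℕ)) := by
    split_ifs with p q q
    · exact le_rfl
    · exact Nat.zero_le _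
    · exact absurd (hD q) p
    · exact le_rfl
  unfold cnt
  rcases h with ⟨h4, h5⟩ | ⟨h4, h5⟩ | ⟨i, hi, h4, h5⟩
  · rw [if_pos h4, if_neg h5]
    omega
  · rw [if_pos h4, if_neg h5]
    omega
  · have h6 : ((Finset.range k).filter fun i => w i ∉ D').card <
        ((Finset.range k).filter fun i => w i ∉ D).card := by
      refine Finset.card_lt_card ⟨Finset.monotone_filter_right _ fun i _ hi h' => hi (hD h'), ?_⟩
      intro hsub
      have : i ∈ (Finset.range k).filter fun i => w i ∉ D' :=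
        hsub (Finset.mem_filter.2 ⟨Finset.mem_range.2 hi, h5⟩)
      exact (Finset.mem_filter.1 this).2 h4
    omega

theorem exists_level {t : ℝ} (ht : 0 < t) : ∃ n : ℕ, (n : ℝ) < t ∧ t ≤ n + 1 := by
  have h1 : 0 < ⌈t⌉₊ := Nat.ceil_pos.2 ht
  refine ⟨⌈t⌉₊ - 1, ?_, ?_⟩
  · rw [Nat.cast_pred h1]
    linarith [Nat.ceil_lt_add_one ht.le]
  · rw [Nat.cast_pred h1]
    linarith [Nat.le_ceil t]

theorem exists_box {D : Set ℝ} (hD : D.Countable) {f : ℕ → ℝ} {t : ℝ} {k : ℕ} {w : ℕ → ℝ} {n : ℕ}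
    (hg : Good f t) (hn : (n : ℝ) < t) (htn : t ≤ n + 1) {U : Set E} (hU : IsOpen U)
    (hx : Phi f t k w ∈ U) :
    ∃ (V : Set E) (D' : Set ℝ), IsOpen V ∧ Phi f t k w ∈ V ∧ V ∩ Mset ⊆ U ∧ D'.Countable ∧ D ⊆ D' ∧
      (∀ z ∈ bd Mset V, ∃ g s w', Good g s ∧ z = Phi g s k w') ∧
      ∀ (g : ℕ → ℝ) (s : ℝ) (w' : ℕ → ℝ) (m : ℕ), Good g s → (m : ℝ) < s → s ≤ m + 1 →
        Phi g s k w' ∈ bd Mset V → cnt D' g s k w' m + 1 ≤ cnt D g s k w' m := by
  obtain ⟨ε, hε, hb⟩ := Metric.isOpen_iff.1 hU _ hx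
  set η : ℝ := ε / 4 with hη
  have hη0 : 0 < η := by positivity
  have hdense : Dense Dᶜ := hD.dense_compl ℝ
  obtain ⟨t1, ht1D, ht1, ht1'⟩ := hdense.exists_between (show max (n : ℝ) (t - η) < t by
    exact max_lt hn (by linarith))
  obtain ⟨t2, ht2D, ht2, ht2'⟩ := hdense.exists_between (show t < t + η by linarith)
  obtain ⟨y1, hy1D, hy1, hy1'⟩ := hdense.exists_between (show f n - η < f n by linarith)
  obtain ⟨y2, hy2D, hy2, hy2'⟩ := hdense.exists_between (show f n < f n + η by linarith)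
  have ha : ∀ i, ∃ a ∈ Dᶜ, w i - η < a ∧ a < w i := fun i =>
    hdense.exists_between (show w i - η < w i by linarith)
  have hb' : ∀ i, ∃ b ∈ Dᶜ, w i < b ∧ b < w i + η := fun i =>
    hdense.exists_between (show w i < w i + η by linarith)
  choose a haD ha1 ha2 using ha
  choose b hbD hb1 hb2 using hb'
  have hnt1 : (n : ℝ) < t1 := (le_max_left _ _).trans_lt ht1
  have ht1η : t - η < t1 := (le_max_right _ _).trans_lt ht1
  have h12 : t1 < t2 := ht1'.trans ht2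
  refine ⟨Box n f k t1 t2 y1 y2 a b, D ∪ ({t1, t2, y1, y2} ∪ (range a ∪ range b)),
    isOpen_Box _ _ _ _ _ _ _ _ _, ?_, ?_, ?_, subset_union_left, ?_, ?_⟩
  · exact (phi_mem_box hnt1 h12 hg.1).2 ⟨ht1', ht2, fun _ _ => rfl, hy1', hy2,
      fun i _ => ⟨ha2 i, hb1 i⟩⟩
  · rintro x ⟨hxV, hxM⟩
    obtain ⟨g, s, w', hgs, rfl, h1, h2, hag, h3, h4, h5⟩ := box_mem hnt1 h12 hxV hxM
    refine hb (Metric.mem_ball.2 ?_)
    have hd : dist (Phi g s k w') (Phi f t k w) ≤ 3 * η := by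
      refine dist_phi_le hag htn ?_ ?_ ?_
      · rw [abs_le]; constructor <;> linarith
      · rw [abs_le]; constructor <;> linarith
      · intro i hi
        have := h5 i hi
        have := ha1 i
        have := hb2 i
        rw [abs_le]; constructor <;> linarith
    have : 3 * η < ε := by rw [hη]; linarith
    linarith
  · refine hD.union ((Set.Finite.countable (by simp)).union
      ((countable_range a).union (countable_range b)))
  · rintro z ⟨⟨hzM, hzc⟩, -⟩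
    exact box_cases (k := k) hzM ((om_pos t2).trans_le (closure_box hnt1 h12 hzc).1)
  · intro g s w' m hgs hm hm' hz
    obtain ⟨-, h⟩ := box_boundary hnt1 h12 hgs.1 hz
    refine cnt_lt subset_union_left ?_
    rcases h with h | h | ⟨h1, h2, h3⟩ | ⟨i, hi, h⟩
    · left
      exact ⟨Or.inr (Or.inl (by simp [h])), by rw [h]; exact ht1D⟩
    · left
      exact ⟨Or.inr (Or.inl (by simp [h])), by rw [h]; exact ht2D⟩
    · right; left
      have hmn : m = n := by
        have e1 : (m : ℝ) < n + 1 := by linarith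
        have e2 : (n : ℝ) < m + 1 := by linarith
        have e1' : m < n + 1 := by exact_mod_cast e1
        have e2' : n < m + 1 := by exact_mod_cast e2
        omega
      subst hmn
      rcases h3 with h3 | h3
      · exact ⟨Or.inr (Or.inl (by simp [h3])), by rw [h3]; exact hy1D⟩
      · exact ⟨Or.inr (Or.inl (by simp [h3])), by rw [h3]; exact hy2D⟩
    · right; right
      refine ⟨i, hi, ?_⟩
      rcases h with h | h
      · exact ⟨Or.inr (Or.inr (Or.inl (by rw [h]; exact mem_range_self i))), by rw [h]; exact haD i⟩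
      · exact ⟨Or.inr (Or.inr (Or.inr (by rw [h]; exact mem_range_self i))), by rw [h]; exact hbD i⟩

/-- the sets `Y(k,m,D)` -/
def Y (k m : ℕ) (D : Set ℝ) : Set E :=
  {x | ∃ (f : ℕ → ℝ) (t : ℝ) (w : ℕ → ℝ) (n : ℕ), Good f t ∧ (n : ℝ) < t ∧ t ≤ n + 1 ∧ cnt D f t k w n ≤ m ∧ x = Phi f t k w}

theorem Y_subset (k m : ℕ) (D : Set ℝ) : Y k m D ⊆ Mset := by
  rintro x ⟨f, t, w, n, hg, -, -, -, rfl⟩
  exact mem_Mset_phi k w hg

theorem td_Y (k : ℕ) : ∀ (m : ℕ) (D : Set ℝ), D.Countable → TD (Y k m D) (m : Ordinal.{0}) := by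
  intro m
  induction m with
  | zero =>
    intro D hD
    refine td_rule _ _ fun x hx U hU hxU => ?_
    obtain ⟨f, t, w, n, hg, hn, htn, hc, rfl⟩ := hx
    obtain ⟨V, D', hV, hxV, hVU, hD', hDD', -, hbd⟩ := exists_box hD hg hn htn hU hxU
    refine ⟨V, hV, hxV, (inter_subset_inter_right _ (Y_subset k 0 D)).trans hVU, Or.inl ?_⟩
    rw [Set.eq_empty_iff_forall_notMem]
    intro z hz
    obtain ⟨g, s, w', m', hgs, hm, hm', hc', rfl⟩ := hz.1.1
    have := hbd g s w' m' hgs hm hm' (bd_mono (Y_subset k 0 D) hz)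
    omega
  | succ m ih =>
    intro D hD
    refine td_rule _ _ fun x hx U hU hxU => ?_
    obtain ⟨f, t, w, n, hg, hn, htn, hc, rfl⟩ := hx
    obtain ⟨V, D', hV, hxV, hVU, hD', hDD', -, hbd⟩ := exists_box hD hg hn htn hU hxU
    refine ⟨V, hV, hxV, (inter_subset_inter_right _ (Y_subset k (m + 1) D)).trans hVU,
      Or.inr ⟨m, ?_, td_mono (ih D' hD') _ ?_⟩⟩
    · exact_mod_cast Nat.lt_succ_self m
    · intro z hz
      obtain ⟨g, s, w', m', hgs, hm, hm', hc', rfl⟩ := hz.1.1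
      have := hbd g s w' m' hgs hm hm' (bd_mono (Y_subset k (m + 1) D) hz)
      exact ⟨g, s, w', m', hgs, hm, hm', by omega, rfl⟩

theorem td_Mset : TD Mset Ordinal.omega0.{0} := by
  refine td_rule _ _ fun x hx U hU hxU => ?_
  rcases hx with ⟨f, t, k, w, hg, rfl⟩ | ⟨f, hf, rfl⟩
  · obtain ⟨n, hn, htn⟩ := exists_level hg.1
    obtain ⟨V, D', hV, hxV, hVU, hD', hDD', hcase, hbd⟩ :=
      exists_box countable_empty hg hn htn hU hxU
    refine ⟨V, hV, hxV, hVU, Or.inr ⟨((k + 1 : ℕ) : Ordinal.{0}), Ordinal.natCast_lt_omega0 _,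
      td_mono (td_Y k (k + 1) D' hD') _ ?_⟩⟩
    intro z hz
    obtain ⟨g, s, w', hgs, rfl⟩ := hcase z hz
    obtain ⟨m, hm, hm'⟩ := exists_level hgs.1
    have h1 := hbd g s w' m hgs hm hm' hz
    have h2 := cnt_le ∅ g s k w' m
    exact ⟨g, s, w', m, hgs, hm, hm', by omega, rfl⟩
  · obtain ⟨n, hn⟩ := end_small hU hxU
    refine ⟨{x : E | 0 < x (.a (n + 1) f)}, isOpen_a _ _, ?_, hn, Or.inl (end_closed n (hf n))⟩
    show 0 < Psi f (.a (n + 1) f)
    rw [psi_a_of_agree (fun _ _ => rfl)]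
    exact half_pow_pos _

end Pool.Agent.LibTD67
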