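import Pool.Agent.LibTD67.Gate
import Pool.Agent.LibTD67.Sep
import Pool.Agent.LibTD67.Leb
import Pool.Agent.LibTD67.Upper

set_option autoImplicit false

/-! No `G_δ` set containing `M` has `trind ≤ ω`. -/

namespace Pool.Agent.LibTD67

open Set Filter Topology

/-- the parameters of a point of the cube -/
noncomputable def wv (d : ℕ) (x : Fin (d + 1) → ℝ) : ℕ → ℝ :=
  fun i => if h : i < d then x ⟨i + 1, by omega⟩ else 0

theorem continuous_wv (d : ℕ) : Continuous (wv d) := by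
  refine continuous_pi fun i => ?_
  unfold wv
  split_ifs with h
  · exact continuous_apply _
  · exact continuous_const

theorem wv_mem (d : ℕ) {x : Fin (d + 1) → ℝ} (hx : x ∈ Cube (d + 1)) : wv d x ∈ Kw := by
  intro i
  unfold wv
  split_ifs with h
  · exact hx _
  · simp

/-- the embedding of the cube -/
noncomputable def io (f : ℕ → ℝ) (N d : ℕ) (x : Fin (d + 1) → ℝ) : E :=
  Phi f (1 / 2 + N * (1 - x 0)) d (wv d x)

theorem continuous_io (f : ℕ → ℝ) (N d : ℕ) : Continuous (io f N d) := by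
  have h1 : Continuous fun x : Fin (d + 1) → ℝ => ((1 / 2 + N * (1 - x 0) : ℝ), wv d x) := by
    refine Continuous.prodMk ?_ (continuous_wv d)
    fun_prop
  exact (continuous_path f d).comp h1

theorem no_hull {M' : Set E} (hG : IsGδ M') (hM : Mset ⊆ M') (hT : TD M' Ordinal.omega0.{0}) :
    False := by
  obtain ⟨f, hf, hpath⟩ := branch_exists hG hM
  have hPsi : Psi f ∈ M' := hM (mem_Mset_psi hf)
  have hPU : Psi f ∈ {x : E | 0 < x (.a 1 f)} := by
    show 0 < Psi f (.a 1 f)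
    rw [psi_a_of_agree (fun _ _ => rfl)]
    exact half_pow_pos _
  obtain ⟨V, hV, hPV, hVU, hb⟩ := td_elim hT _ hPsi _ (isOpen_a 1 f) hPU
  have hd : ∃ d : ℕ, bd M' V = ∅ ∨ ∃ β < (d : Ordinal.{0}), TD (bd M' V) β := by
    rcases hb with hb | ⟨β, hβ, hb⟩
    · exact ⟨0, Or.inl hb⟩
    · obtain ⟨n, rfl⟩ := Ordinal.lt_omega0.1 hβ
      exact ⟨n + 1, Or.inr ⟨n, by exact_mod_cast Nat.lt_succ_self n, hb⟩⟩
  obtain ⟨d, hd⟩ := hd
  obtain ⟨ε, hε, hball⟩ := Metric.isOpen_iff.1 hV _ hPV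
  obtain ⟨N, hN⟩ := exists_nat_gt (4 / ε)
  have hlt : 4 / (1 + (N : ℝ)) < ε := by
    rw [div_lt_iff₀ (by positivity)]
    rw [div_lt_iff₀ hε] at hN
    nlinarith
  have hN0 : (0 : ℝ) ≤ N := Nat.cast_nonneg N
  have hVt : ∀ (t : ℝ) (w : ℕ → ℝ), (N : ℝ) ≤ t → Phi f t d w ∈ V := fun t w ht =>
    hball (Metric.mem_ball.2 ((dist_phi_psi (fun _ _ => rfl) ht).trans_lt hlt))
  -- the cube
  let K : Set E := io f N d '' Cube (d + 1)
  have hKc : IsCompact K := (isCompact_cube (d + 1)).image (continuous_io f N d)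
  have htpos : ∀ x ∈ Cube (d + 1), (0 : ℝ) < 1 / 2 + N * (1 - x 0) := by
    intro x hx
    have h1 := (hx 0).2
    have : 0 ≤ (N : ℝ) * (1 - x 0) := mul_nonneg hN0 (by linarith)
    linarith
  have hKM : K ⊆ M' := by
    rintro _ ⟨x, hx, rfl⟩
    exact hpath _ d (htpos x hx) _ (wv_mem d hx)
  let A0 : Set E := {x : E | x (.c d) ≤ om (N + 1 / 2)}
  let B0 : Set E := {x : E | x (.a 0 f) ≤ 1 / 2}
  have hA0 : IsClosed A0 := isClosed_le (continuous_ev _) continuous_const
  have hB0 : IsClosed B0 := isClosed_le (continuous_ev _) continuous_const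
  have hA0V : A0 ∩ K ⊆ V := by
    rintro _ ⟨hxA, x, hx, rfl⟩
    have h1 : om (1 / 2 + N * (1 - x 0)) ≤ om (N + 1 / 2) := by
      have : io f N d x (.c d) = om (1 / 2 + N * (1 - x 0)) := phi_c _ _ _ _
      rw [← this]; exact hxA
    rw [om_le_iff (by positivity) (htpos x hx).le] at h1
    exact hVt _ _ (by linarith)
  have hB0V : ∀ z ∈ closure (V ∩ K), z ∈ K → z ∉ B0 := by
    have hC : closure (V ∩ K) ⊆ {x : E | x (.a 0 f) = 1} := by
      refine closure_minimal ?_ (isClosed_eq (continuous_ev _) continuous_const)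
      rintro _ ⟨hxV, x, hx, rfl⟩
      have hU := hVU ⟨hxV, hKM ⟨x, hx, rfl⟩⟩
      obtain ⟨-, h2⟩ := agree_of_phi_a (f := f) (g := f) hU
      show Phi f _ d _ (.a 0 f) = 1
      rw [phi_a_of_agree (fun _ _ => rfl), pow_zero, one_mul, cl_of_one_le]
      push_cast at h2 ⊢
      linarith
    intro z hz _ hzB
    have h1 : z (.a 0 f) = 1 := hC hz
    have h2 : z (.a 0 f) ≤ 1 / 2 := hzB
    linarith
  have hbdK : bd K V ⊆ bd M' V := bd_mono hKM
  have hF : Sep d (bd K V) := by
    refine sep_of_td d _ ((hKc.inter_right isClosed_closure).diff hV) ?_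
    rcases hd with hd | ⟨β, hβ, hd⟩
    · exact Or.inl (subset_eq_empty hbdK hd)
    · exact Or.inr ⟨β, hβ, td_mono hd _ hbdK⟩
  let A : Fin d → Set E := fun i => {x : E | x (.d d i) ≤ 0}
  let B : Fin d → Set E := fun i => {x : E | Real.arctan 1 * x (.c d) ≤ x (.d d i)}
  have hcoord : ∀ (x : Fin (d + 1) → ℝ) (i : Fin d), io f N d x (.d d i) =
      om (1 / 2 + N * (1 - x 0)) * Real.arctan (x i.succ) := by
    intro x i
    have h1 : io f N d x (.d d i) = om (1 / 2 + N * (1 - x 0)) * Real.arctan (wv d x i) :=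
      phi_d f _ i.2 _
    rw [h1]
    congr 2
    unfold wv
    rw [dif_pos i.2]
    rfl
  have hcoordc : ∀ (x : Fin (d + 1) → ℝ), io f N d x (.c d) = om (1 / 2 + N * (1 - x 0)) :=
    fun x => phi_c _ _ _ _
  have harc : 0 < Real.arctan 1 := by
    rw [Real.arctan_one]; positivity
  have hsep := sep_step hKc.isClosed hV hA0 hB0 hA0V hB0V hF (fun z hz => hz.1.1)
    (le_refl (bd K V)) A B (fun i => isClosed_le (continuous_ev _) continuous_const)
    (fun i => isClosed_le (continuous_const.mul (continuous_ev _)) (continuous_ev _)) (by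
      intro i
      rw [Set.disjoint_left]
      rintro _ ⟨hzA, x, hx, rfl⟩ ⟨hzB, -⟩
      have h1 : io f N d x (.d d i) ≤ 0 := hzA
      have h2 : Real.arctan 1 * io f N d x (.c d) ≤ io f N d x (.d d i) := hzB
      rw [hcoordc] at h2
      have := mul_pos harc (om_pos (1 / 2 + N * (1 - x 0)))
      linarith)
  obtain ⟨A', B', hA', hB', hA'K, hB'K, hAA', hBB', hdis, hcov⟩ := hsep
  refine lebesgue (d + 1) (fun i => Cube (d + 1) ∩ io f N d ⁻¹' (A' i))
    (fun i => Cube (d + 1) ∩ io f N d ⁻¹' (B' i))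
    (fun i => (isCompact_cube _).inter_right ((hA' i).preimage (continuous_io f N d)))
    (fun i => (isCompact_cube _).inter_right ((hB' i).preimage (continuous_io f N d))) ?_ ?_ ?_ ?_
  · intro i
    rw [Set.disjoint_left]
    rintro x ⟨-, h1⟩ ⟨-, h2⟩
    exact Set.disjoint_left.1 (hdis i) h1 h2
  · intro i x hx hxi
    refine ⟨hx, ?_⟩
    revert hxi
    refine Fin.cases ?_ (fun j => ?_) i
    · intro hxi
      have := hAA' 0
      rw [Fin.cons_zero] at this
      refine this ⟨?_, x, hx, rfl⟩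
      show io f N d x (.c d) ≤ om (N + 1 / 2)
      rw [hcoordc, hxi, sub_zero, mul_one, add_comm]
    · intro hxi
      have := hAA' j.succ
      rw [Fin.cons_succ] at this
      refine this ⟨?_, x, hx, rfl⟩
      show io f N d x (.d d j) ≤ 0
      rw [hcoord, hxi, Real.arctan_zero, mul_zero]
  · intro i x hx hxi
    refine ⟨hx, ?_⟩
    revert hxi
    refine Fin.cases ?_ (fun j => ?_) i
    · intro hxi
      have := hBB' 0
      rw [Fin.cons_zero] at this
      refine this ⟨?_, x, hx, rfl⟩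
      show Phi f (1 / 2 + N * (1 - x 0)) d (wv d x) (.a 0 f) ≤ 1 / 2
      rw [phi_a_of_agree (fun _ _ => rfl), pow_zero, one_mul, hxi, sub_self, mul_zero, add_zero,
        Nat.cast_zero, sub_zero]
      unfold cl
      norm_num
    · intro hxi
      have := hBB' j.succ
      rw [Fin.cons_succ] at this
      refine this ⟨?_, x, hx, rfl⟩
      show Real.arctan 1 * io f N d x (.c d) ≤ io f N d x (.d d j)
      rw [hcoord, hcoordc, hxi, mul_comm]
  · intro x hx
    obtain ⟨i, hi⟩ := mem_iUnion.1 (hcov ⟨x, hx, rfl⟩)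
    refine mem_iUnion.2 ⟨i, ?_⟩
    rcases hi with hi | hi
    · exact Or.inl ⟨hx, hi⟩
    · exact Or.inr ⟨hx, hi⟩

/-- the enlargement theorem for `trind` fails (with `α = ω`). -/
theorem enlargement_fails :
    ∃ M : Set E, TD M Ordinal.omega0.{0} ∧ ∀ M' : Set E, IsGδ M' → M ⊆ M' →
      ¬ TD M' Ordinal.omega0.{0} :=
  ⟨Mset, td_Mset, fun _ hG hM hT => no_hull hG hM hT⟩

end Pool.Agent.LibTD67
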