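import Mathlib

set_option autoImplicit false

/-! Small transfinite inductive dimension of subsets (as in the frozen statement S13394). -/

namespace Pool.Agent.LibTD67

open Set

variable {X : Type} [TopologicalSpace X]

/-- the relative boundary of `V ∩ T` in `T`. -/
def bd (T V : Set X) : Set X := (T ∩ closure (V ∩ T)) \ V

/-- the relation `R` is closed under the defining rule of `trind ≤ γ`. -/
def Rule (R : Set X → Ordinal.{0} → Prop) : Prop :=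
  ∀ (T : Set X) (γ : Ordinal.{0}),
    (∀ x ∈ T, ∀ U : Set X, IsOpen U → x ∈ U →
      ∃ V : Set X, IsOpen V ∧ x ∈ V ∧ V ∩ T ⊆ U ∧
        ((T ∩ closure (V ∩ T)) \ V = ∅ ∨
          ∃ β < γ, R ((T ∩ closure (V ∩ T)) \ V) β)) → R T γ

/-- `trind T ≤ γ`. -/
def TD (T : Set X) (γ : Ordinal.{0}) : Prop := ∀ R : Set X → Ordinal.{0} → Prop, Rule R → R T γ

theorem td_rule : Rule (TD : Set X → Ordinal.{0} → Prop) := by
  intro T γ h R hR
  refine hR T γ fun x hx U hU hxU => ?_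
  obtain ⟨V, hV, hxV, hVU, hb⟩ := h x hx U hU hxU
  refine ⟨V, hV, hxV, hVU, ?_⟩
  rcases hb with hb | ⟨β, hβ, hb⟩
  · exact Or.inl hb
  · exact Or.inr ⟨β, hβ, hb R hR⟩

theorem td_elim {T : Set X} {γ : Ordinal.{0}} (h : TD T γ) :
    ∀ x ∈ T, ∀ U : Set X, IsOpen U → x ∈ U →
      ∃ V : Set X, IsOpen V ∧ x ∈ V ∧ V ∩ T ⊆ U ∧
        (bd T V = ∅ ∨ ∃ β < γ, TD (bd T V) β) := by
  refine h (fun T γ => ∀ x ∈ T, ∀ U : Set X, IsOpen U → x ∈ U →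
      ∃ V : Set X, IsOpen V ∧ x ∈ V ∧ V ∩ T ⊆ U ∧
        (bd T V = ∅ ∨ ∃ β < γ, TD (bd T V) β)) ?_
  intro T γ h x hx U hU hxU
  obtain ⟨V, hV, hxV, hVU, hb⟩ := h x hx U hU hxU
  refine ⟨V, hV, hxV, hVU, ?_⟩
  rcases hb with hb | ⟨β, hβ, hb⟩
  · exact Or.inl hb
  · exact Or.inr ⟨β, hβ, td_rule _ _ hb⟩

theorem bd_mono {T T' V : Set X} (h : T' ⊆ T) : bd T' V ⊆ bd T V := by
  rintro x ⟨⟨hx, hc⟩, hV⟩
  exact ⟨⟨h hx, closure_mono (inter_subset_inter_right _ h) hc⟩, hV⟩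

theorem td_mono {T : Set X} {γ : Ordinal.{0}} (h : TD T γ) :
    ∀ T' ⊆ T, TD T' γ := by
  refine h (fun T γ => ∀ T' ⊆ T, TD T' γ) ?_
  intro T γ h T' hT'
  refine td_rule T' γ fun x hx U hU hxU => ?_
  obtain ⟨V, hV, hxV, hVU, hb⟩ := h x (hT' hx) U hU hxU
  refine ⟨V, hV, hxV, (inter_subset_inter_right _ hT').trans hVU, ?_⟩
  rcases hb with hb | ⟨β, hβ, hb⟩
  · left
    exact subset_eq_empty (bd_mono hT') hb
  · exact Or.inr ⟨β, hβ, hb _ (bd_mono hT')⟩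

theorem td_le {T : Set X} {γ γ' : Ordinal.{0}} (h : TD T γ) (hγ : γ ≤ γ') : TD T γ' := by
  refine td_rule T γ' fun x hx U hU hxU => ?_
  obtain ⟨V, hV, hxV, hVU, hb⟩ := td_elim h x hx U hU hxU
  refine ⟨V, hV, hxV, hVU, ?_⟩
  rcases hb with hb | ⟨β, hβ, hb⟩
  · exact Or.inl hb
  · exact Or.inr ⟨β, hβ.trans_le hγ, hb⟩

end Pool.Agent.LibTD67
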